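import Pool.Agent.TH174.Gon.Deg

set_option autoImplicit false
set_option linter.unusedSimpArgs false
set_option linter.unusedSectionVars false

namespace Pool.Agent.TH174.Gon

open MvPolynomial

variable (k : Type*) [Field k] [CharP k 2]

theorem sqL_inj {a b : L k} (h : a ^ 2 = b ^ 2) : a = b := by
  have h1 : (a - b) ^ 2 = 0 := by
    have h2 : (2 : L k) = 0 := CharTwo.two_eq_zero
    linear_combination h + (b ^ 2 - a * b) * h2
  exact sub_eq_zero.1 (pow_eq_zero_iff (two_ne_zero) |>.1 h1)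

theorem dot_r : rL k 0 * yv (rL k) 0 + rL k 1 * yv (rL k) 1 + rL k 2 * yv (rL k) 2 = 0 := by
  have two : (2 : L k) = 0 := CharTwo.two_eq_zero
  simp only [yv, cr, Fin.isValue, Matrix.cons_val_zero, Matrix.cons_val_one, Matrix.cons_val]
  linear_combination (rL k 0 * rL k 1 * rL k 2 ^ 4 + rL k 0 * rL k 2 * rL k 1 ^ 4 +
    rL k 1 * rL k 2 * rL k 0 ^ 4) * two

theorem η_coe' (i : Fin 3) : ((η k i : K k) : L k) = yv (rL k) i / yv (rL k) 0 := by
  rw [eq_div_iff (y0_ne k), mul_comm]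
  exact η_coe k i

theorem eq₁ : ξ k 0 * η k 0 ^ 2 + ξ k 1 * η k 1 ^ 2 + ξ k 2 * η k 2 ^ 2 = 0 := by
  apply Subtype.ext
  have two : (2 : L k) = 0 := CharTwo.two_eq_zero
  have h0 := y0_ne k
  have h := dot_r k
  push_cast
  rw [ξ_coe, ξ_coe, ξ_coe, η_coe', η_coe', η_coe']
  have h1 : xv (rL k) 0 * yv (rL k) 0 ^ 2 + xv (rL k) 1 * yv (rL k) 1 ^ 2 +
      xv (rL k) 2 * yv (rL k) 2 ^ 2 = 0 := by
    unfold xv
    linear_combination (rL k 0 * yv (rL k) 0 + rL k 1 * yv (rL k) 1 + rL k 2 * yv (rL k) 2) * h -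
      (rL k 0 * yv (rL k) 0 * (rL k 1 * yv (rL k) 1) + rL k 0 * yv (rL k) 0 * (rL k 2 * yv (rL k) 2) +
      rL k 1 * yv (rL k) 1 * (rL k 2 * yv (rL k) 2)) * two
  have h2 : (xv (rL k) 0 * (yv (rL k) 0 / yv (rL k) 0) ^ 2 + xv (rL k) 1 * (yv (rL k) 1 / yv (rL k) 0) ^ 2 +
      xv (rL k) 2 * (yv (rL k) 2 / yv (rL k) 0) ^ 2) = (xv (rL k) 0 * yv (rL k) 0 ^ 2 +
      xv (rL k) 1 * yv (rL k) 1 ^ 2 + xv (rL k) 2 * yv (rL k) 2 ^ 2) / yv (rL k) 0 ^ 2 := by
    field_simp
  rw [h2, h1, zero_div]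

theorem eq₂ : ξ k 0 ^ 2 * η k 0 + ξ k 1 ^ 2 * η k 1 + ξ k 2 ^ 2 * η k 2 = 0 := by
  apply Subtype.ext
  have two : (2 : L k) = 0 := CharTwo.two_eq_zero
  have h0 := y0_ne k
  push_cast
  rw [ξ_coe, ξ_coe, ξ_coe, η_coe', η_coe', η_coe']
  have h1 : xv (rL k) 0 ^ 2 * yv (rL k) 0 + xv (rL k) 1 ^ 2 * yv (rL k) 1 +
      xv (rL k) 2 ^ 2 * yv (rL k) 2 = 0 := by
    simp only [xv, yv, cr, Fin.isValue, Matrix.cons_val_zero, Matrix.cons_val_one, Matrix.cons_val]
    linear_combination (rL k 0 ^ 4 * rL k 1 * rL k 2 ^ 4 + rL k 0 ^ 4 * rL k 2 * rL k 1 ^ 4 +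
      rL k 0 * rL k 1 ^ 4 * rL k 2 ^ 4) * two
  have h2 : (xv (rL k) 0 ^ 2 * (yv (rL k) 0 / yv (rL k) 0) + xv (rL k) 1 ^ 2 * (yv (rL k) 1 / yv (rL k) 0) +
      xv (rL k) 2 ^ 2 * (yv (rL k) 2 / yv (rL k) 0)) = (xv (rL k) 0 ^ 2 * yv (rL k) 0 +
      xv (rL k) 1 ^ 2 * yv (rL k) 1 + xv (rL k) 2 ^ 2 * yv (rL k) 2) / yv (rL k) 0 := by
    field_simp
  rw [h2, h1, zero_div]

/-- The function field of the surface is not rational. -/
theorem not_rational [PerfectRing k 2] (e : L k ≃ₐ[k] K k) : False := by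
  have hx : (fun i => e.symm (ξ k i)) ≠ 0 := by
    intro h
    have := congrFun h 0
    simp [ξ] at this
  have hy : (fun i => e.symm (η k i)) ≠ 0 := by
    intro h
    have := congrFun h 0
    simp [η] at this
  have h1 := congrArg e.symm (eq₁ k)
  have h2 := congrArg e.symm (eq₂ k)
  simp only [map_add, map_mul, map_pow, map_zero] at h1 h2
  rcases sq_or k (Fin 2) (F := L k) _ _ hx hy h1 h2 with h | h
  · apply not_mem k
    constructor
    · obtain ⟨g, hg⟩ := h 0 1
      rw [← map_mul] at hg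
      have h3 : ξ k 0 * ξ k 1 = (e g) ^ 2 := by
        rw [← map_pow, ← hg, AlgEquiv.apply_symm_apply]
      have h4 : aL k = ((e g : K k) : L k) := by
        apply sqL_inj k
        have := congrArg (fun z : K k => (z : L k)) h3
        simpa [ξ] using this
      rw [h4]
      exact (e g).2
    · obtain ⟨g, hg⟩ := h 0 2
      rw [← map_mul] at hg
      have h3 : ξ k 0 * ξ k 2 = (e g) ^ 2 := by
        rw [← map_pow, ← hg, AlgEquiv.apply_symm_apply]
      have h4 : bL k = ((e g : K k) : L k) := by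
        apply sqL_inj k
        have := congrArg (fun z : K k => (z : L k)) h3
        simpa [ξ] using this
      rw [h4]
      exact (e g).2
  · obtain ⟨g, hg⟩ := h 0 1
    rw [← map_mul] at hg
    have h3 : η k 0 * η k 1 = (e g) ^ 2 := by
      rw [← map_pow, ← hg, AlgEquiv.apply_symm_apply]
    apply c₁_not_sq k ((e g : K k) : L k)
    have := congrArg (fun z : K k => (z : L k)) h3
    simpa [η] using this

theorem equiv_of_rank {k K' : Type*} [Field k] [Field K'] [Algebra k K'] (φ : Fin 2 → K')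
    (h : AlgebraicIndependent k φ)
    (hlt : Module.rank (IntermediateField.adjoin k (Set.range φ)) K' < 2) :
    Nonempty (FractionRing (MvPolynomial (Fin 2) k) ≃ₐ[k] K') := by
  have h2 : Module.rank (IntermediateField.adjoin k (Set.range φ)) K' < Cardinal.aleph0 :=
    hlt.trans (Cardinal.natCast_lt_aleph0 (n := 2))
  have hfd : Module.Finite (IntermediateField.adjoin k (Set.range φ)) K' :=
    Module.rank_lt_aleph0_iff.1 h2
  have hfin : Module.finrank (IntermediateField.adjoin k (Set.range φ)) K' < 2 := by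
    have := Cardinal.toNat_lt_toNat hlt (Cardinal.natCast_lt_aleph0 (n := 2))
    simpa [Module.finrank] using this
  have hpos : 0 < Module.finrank (IntermediateField.adjoin k (Set.range φ)) K' :=
    Module.finrank_pos
  have h1 : Module.finrank (IntermediateField.adjoin k (Set.range φ)) K' = 1 := by omega
  have h2 : IntermediateField.adjoin k (Set.range φ) = ⊤ :=
    IntermediateField.finrank_eq_one_iff_eq_top.1 h1
  exact ⟨h.aevalEquivField.trans ((IntermediateField.equivOfEq h2).trans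
    IntermediateField.topEquiv)⟩

theorem two_le_mapDegree [PerfectRing k 2] (φ : Fin 2 → K k) (h : IsDominant k φ) :
    2 ≤ mapDegree k φ := by
  by_contra hlt
  rw [not_le] at hlt
  obtain ⟨e⟩ := equiv_of_rank φ h hlt
  exact not_rational k e

end Pool.Agent.TH174.Gon
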