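import Pool.Agent.TH174.Gon.Poly

set_option autoImplicit false

/-! Rational solutions of `∑ x_i y_i ^ 2 = ∑ x_i ^ 2 y_i = 0` in characteristic two. -/

namespace Pool.Agent.TH174.Gon

open MvPolynomial

theorem exists_prim_frac {k : Type*} [Field k] {σ : Type*} {F : Type*} [Field F]
    [Algebra (MvPolynomial σ k) F] [IsFractionRing (MvPolynomial σ k) F] (x : Fin 3 → F) (hx : x ≠ 0) :
    ∃ (c : F) (p : Fin 3 → MvPolynomial σ k), c ≠ 0 ∧
      (∀ j, x j = c * algebraMap (MvPolynomial σ k) F (p j)) ∧ p ≠ 0 ∧ Prim p := by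
  obtain ⟨b, hb⟩ := IsLocalization.exist_integer_multiples_of_finite
    (nonZeroDivisors (MvPolynomial σ k)) x
  choose r hr using hb
  have hb0 : algebraMap (MvPolynomial σ k) F b ≠ 0 :=
    IsFractionRing.to_map_ne_zero_of_mem_nonZeroDivisors b.2
  have hr' : ∀ j, algebraMap (MvPolynomial σ k) F (r j) =
      algebraMap (MvPolynomial σ k) F b * x j := by
    intro j
    rw [hr j, Algebra.smul_def]
  have hinj := IsFractionRing.injective (MvPolynomial σ k) F
  obtain ⟨j0, hj0⟩ := Function.ne_iff.1 hx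
  have hr0 : r ≠ 0 := by
    intro h
    apply hj0
    have := hr' j0
    rw [h] at this
    simp only [Pi.zero_apply, map_zero] at this
    exact (mul_eq_zero.1 this.symm).resolve_left hb0
  obtain ⟨c, p, hc, h1, h2⟩ := exists_prim r hr0
  refine ⟨(algebraMap (MvPolynomial σ k) F b)⁻¹ * algebraMap (MvPolynomial σ k) F c, p, ?_, ?_, ?_, h2⟩
  · refine mul_ne_zero (inv_ne_zero hb0) ?_
    rw [Ne, ← map_zero (algebraMap (MvPolynomial σ k) F)]
    exact fun h => hc (hinj h)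
  · intro j
    rw [mul_assoc, ← map_mul, ← h1 j, hr' j, inv_mul_cancel_left₀ hb0]
  · rintro rfl
    apply hr0
    funext j
    rw [h1 j]
    simp

theorem sq_or (k : Type*) [Field k] (σ : Type*) {F : Type*} [Field F]
    [Algebra (MvPolynomial σ k) F] [IsFractionRing (MvPolynomial σ k) F]
    [CharP k 2] [PerfectRing k 2] (x y : Fin 3 → F) (hx : x ≠ 0) (hy : y ≠ 0)
    (h : x 0 * y 0 ^ 2 + x 1 * y 1 ^ 2 + x 2 * y 2 ^ 2 = 0)
    (h' : x 0 ^ 2 * y 0 + x 1 ^ 2 * y 1 + x 2 ^ 2 * y 2 = 0) :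
    (∀ a b, ∃ e, x a * x b = e ^ 2) ∨ (∀ a b, ∃ e, y a * y b = e ^ 2) := by
  obtain ⟨c, p, hc, hp, hp0, hpp⟩ := exists_prim_frac (k := k) (σ := σ) x hx
  obtain ⟨d, q, hd, hq, hq0, hqq⟩ := exists_prim_frac (k := k) (σ := σ) y hy
  have hinj := IsFractionRing.injective (MvPolynomial σ k) F
  have e1 : p 0 * q 0 ^ 2 + p 1 * q 1 ^ 2 + p 2 * q 2 ^ 2 = 0 := by
    apply hinj
    simp only [map_add, map_mul, map_pow, map_zero]
    rw [hp, hp, hp, hq, hq, hq] at h
    have : c * d ^ 2 ≠ 0 := mul_ne_zero hc (pow_ne_zero 2 hd)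
    apply (mul_eq_zero.1 (_ : (c * d ^ 2) * _ = 0)).resolve_left this
    linear_combination h
  have e2 : q 0 * p 0 ^ 2 + q 1 * p 1 ^ 2 + q 2 * p 2 ^ 2 = 0 := by
    apply hinj
    simp only [map_add, map_mul, map_pow, map_zero]
    rw [hp, hp, hp, hq, hq, hq] at h'
    have : c ^ 2 * d ≠ 0 := mul_ne_zero (pow_ne_zero 2 hc) hd
    apply (mul_eq_zero.1 (_ : (c ^ 2 * d) * _ = 0)).resolve_left this
    linear_combination h'
  rcases wv_zero_or p q hp0 hpp hq0 hqq e1 e2 with hw | hw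
  · left
    intro a b
    obtain ⟨g, hg⟩ := sq_of_wv p hw a b
    refine ⟨c * algebraMap _ F g, ?_⟩
    rw [hp, hp, mul_pow, ← map_pow, ← hg, map_mul]
    ring
  · right
    intro a b
    obtain ⟨g, hg⟩ := sq_of_wv q hw a b
    refine ⟨d * algebraMap _ F g, ?_⟩
    rw [hq, hq, mul_pow, ← map_pow, ← hg, map_mul]
    ring

end Pool.Agent.TH174.Gon
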