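import Pool.Agent.TH174.Gon.Defs
import Pool.Agent.TH174.Gon.Frac

set_option autoImplicit false

namespace Pool.Agent.TH174.Gon

open MvPolynomial

section ring

variable {A : Type*} [CommRing A]

/-- `r × s` up to sign. -/
def cr (r s : Fin 3 → A) : Fin 3 → A :=
  ![r 1 * s 2 + r 2 * s 1, r 2 * s 0 + r 0 * s 2, r 0 * s 1 + r 1 * s 0]

/-- The first coordinate of the parametrisation. -/
def xv (r : Fin 3 → A) : Fin 3 → A := fun i => r i ^ 2

/-- The second coordinate of the parametrisation. -/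
def yv (r : Fin 3 → A) : Fin 3 → A := cr r (fun i => r i ^ 4)

theorem map_xv {B : Type*} [CommRing B] (f : A →+* B) (r : Fin 3 → A) (i : Fin 3) :
    f (xv r i) = xv (fun j => f (r j)) i := by
  simp [xv]

theorem map_cr {B : Type*} [CommRing B] (f : A →+* B) (r s : Fin 3 → A) (i : Fin 3) :
    f (cr r s i) = cr (fun j => f (r j)) (fun j => f (s j)) i := by
  fin_cases i <;> simp [cr]

theorem map_yv {B : Type*} [CommRing B] (f : A →+* B) (r : Fin 3 → A) (i : Fin 3) :
    f (yv r i) = yv (fun j => f (r j)) i := by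
  unfold yv
  rw [map_cr]
  simp

theorem xv_smul (c : A) (r : Fin 3 → A) : xv (c • r) = c ^ 2 • xv r := by
  funext i
  simp [xv, mul_pow]

theorem yv_smul (c : A) (r : Fin 3 → A) : yv (c • r) = c ^ 5 • yv r := by
  funext i
  fin_cases i <;> simp [yv, cr] <;> ring

end ring

section bihom

variable {k : Type*} [Field k] {A : Type*} [CommRing A] [Algebra k A]

theorem aeval_smul {P : MvPolynomial (Fin 3 ⊕ Fin 3) k} {m n : ℕ} (hP : IsBihomogeneous P m n)
    (s t : A) (x y : Fin 3 → A) :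
    aeval (Sum.elim (s • x) (t • y)) P = s ^ m * t ^ n * aeval (Sum.elim x y) P := by
  rw [aeval_def, aeval_def, eval₂_eq', eval₂_eq', Finset.mul_sum]
  refine Finset.sum_congr rfl (fun d hd => ?_)
  obtain ⟨h1, h2⟩ := hP d hd
  rw [Fintype.prod_sum_type, Fintype.prod_sum_type]
  simp only [Sum.elim_inl, Sum.elim_inr, Pi.smul_apply, smul_eq_mul, mul_pow]
  rw [Finset.prod_mul_distrib, Finset.prod_mul_distrib, Finset.prod_pow_eq_pow_sum,
    Finset.prod_pow_eq_pow_sum, h1, h2]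
  ring

theorem eval_smul {P : MvPolynomial (Fin 3 ⊕ Fin 3) k} {m n : ℕ} (hP : IsBihomogeneous P m n)
    (s t : k) (x y : Fin 3 → k) :
    eval (Sum.elim (s • x) (t • y)) P = s ^ m * t ^ n * eval (Sum.elim x y) P := by
  have := aeval_smul (A := k) hP s t x y
  simpa [aeval_eq_eval] using this

end bihom

section eqs

variable {k : Type*} [Field k]

theorem eval_F₁ (x y : Fin 3 → k) : eval (Sum.elim x y) (F₁ k) = ∑ i, x i * y i ^ 2 := by
  simp [F₁]

theorem eval_F₂ (x y : Fin 3 → k) : eval (Sum.elim x y) (F₂ k) = ∑ i, x i ^ 2 * y i := by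
  simp [F₂]

theorem mem_surf (x y : Fin 3 → k) : (x, y) ∈ surf k ↔ x ≠ 0 ∧ y ≠ 0 ∧ ∑ i, x i * y i ^ 2 = 0 ∧
    ∑ i, x i ^ 2 * y i = 0 := by
  simp only [surf, Set.mem_ofPred_eq, eval_F₁, eval_F₂]

theorem grad_indep [CharP k 2] (z : (Fin 3 → k) × (Fin 3 → k)) (hz : z ∈ surf k) :
    LinearIndependent k ![grad (F₁ k) z, grad (F₂ k) z] := by
  obtain ⟨x, y⟩ := z
  obtain ⟨hx, hy, -, -⟩ := hz
  have h2 : (2 : k) = 0 := CharTwo.two_eq_zero
  have g1 : grad (F₁ k) (x, y) = Sum.elim (fun i => y i ^ 2) (fun _ => 0) := by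
    funext s
    unfold grad F₁
    rcases s with i | i <;> fin_cases i <;>
      simp [Fin.sum_univ_three, pderiv_X, h2]
  have g2 : grad (F₂ k) (x, y) = Sum.elim (fun _ => 0) (fun i => x i ^ 2) := by
    funext s
    unfold grad F₂
    rcases s with i | i <;> fin_cases i <;>
      simp [Fin.sum_univ_three, pderiv_X, h2]
  rw [g1, g2, LinearIndependent.pair_iff]
  intro a b hab
  obtain ⟨i, hi⟩ := Function.ne_iff.1 hx
  obtain ⟨j, hj⟩ := Function.ne_iff.1 hy
  have e1 := congrFun hab (Sum.inl j)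
  have e2 := congrFun hab (Sum.inr i)
  simp only [Pi.add_apply, Pi.smul_apply, Sum.elim_inl, Sum.elim_inr, smul_eq_mul, mul_zero,
    add_zero, zero_add, Pi.zero_apply] at e1 e2
  exact ⟨(mul_eq_zero.1 e1).resolve_right (pow_ne_zero 2 hj),
    (mul_eq_zero.1 e2).resolve_right (pow_ne_zero 2 hi)⟩

theorem exists_sqrt [CharP k 2] [PerfectRing k 2] (c : k) : ∃ b : k, b ^ 2 = c :=
  (PerfectRing.bijective_frobenius (R := k) (p := 2)).2 c

theorem sq_inj [CharP k 2] {a b : k} (h : a ^ 2 = b ^ 2) : a = b := by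
  have h1 : (a - b) ^ 2 = 0 := by
    have h2 : (2 : k) = 0 := CharTwo.two_eq_zero
    linear_combination h + (b ^ 2 - a * b) * h2
  exact sub_eq_zero.1 (pow_eq_zero_iff (two_ne_zero) |>.1 h1)

theorem surf_param [CharP k 2] [PerfectRing k 2] {x y : Fin 3 → k} (h : (x, y) ∈ surf k) :
    ∃ r : Fin 3 → k, r ≠ 0 ∧ x = xv r ∧ ∑ i, r i * y i = 0 ∧ ∑ i, r i ^ 4 * y i = 0 := by
  rw [mem_surf] at h
  obtain ⟨hx, hy, h1, h2⟩ := h
  choose r hr using fun i => exists_sqrt (x i)
  refine ⟨r, ?_, ?_, ?_, ?_⟩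
  · rintro rfl
    apply hx
    funext i
    rw [← hr i]
    simp
  · funext i
    exact (hr i).symm
  · apply sq_inj
    rw [sum_pow_char 2, zero_pow (two_ne_zero), ← h1]
    refine Finset.sum_congr rfl (fun i _ => ?_)
    rw [← hr i]
    ring
  · rw [← h2]
    refine Finset.sum_congr rfl (fun i _ => ?_)
    rw [← hr i]
    ring

theorem cr_par {r s y : Fin 3 → k} [CharP k 2] (h1 : ∑ i, r i * y i = 0) (h2 : ∑ i, s i * y i = 0)
    (h : cr r s ≠ 0) : ∃ c : k, y = c • cr r s := by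
  have two : (2 : k) = 0 := CharTwo.two_eq_zero
  rw [Fin.sum_univ_three] at h1 h2
  obtain ⟨i, hi⟩ := Function.ne_iff.1 h
  rw [Pi.zero_apply] at hi
  have key : ∀ i j, cr r s i * y j = cr r s j * y i := by
    intro i j
    fin_cases i <;> fin_cases j <;>
      simp only [cr, Fin.zero_eta, Fin.mk_one, Fin.reduceFinMk, Fin.isValue,
        Matrix.cons_val_zero, Matrix.cons_val_one, Matrix.cons_val] <;>
      first
        | ring1
        | linear_combination s 2 * h1 + r 2 * h2 - ((r 2 * s 0 + r 0 * s 2) * y 0 + r 2 * s 2 * y 2) * two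
        | linear_combination s 1 * h1 + r 1 * h2 - ((r 0 * s 1 + r 1 * s 0) * y 0 + r 1 * s 1 * y 1) * two
        | linear_combination s 2 * h1 + r 2 * h2 - ((r 1 * s 2 + r 2 * s 1) * y 1 + r 2 * s 2 * y 2) * two
        | linear_combination s 0 * h1 + r 0 * h2 - ((r 0 * s 1 + r 1 * s 0) * y 1 + r 0 * s 0 * y 0) * two
        | linear_combination s 1 * h1 + r 1 * h2 - ((r 1 * s 2 + r 2 * s 1) * y 2 + r 1 * s 1 * y 1) * two
        | linear_combination s 0 * h1 + r 0 * h2 - ((r 2 * s 0 + r 0 * s 2) * y 2 + r 0 * s 0 * y 0) * two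
  refine ⟨y i / cr r s i, ?_⟩
  funext j
  rw [Pi.smul_apply, smul_eq_mul, div_mul_eq_mul_div, eq_div_iff hi, mul_comm (y j), key i j,
    mul_comm]

end eqs

end Pool.Agent.TH174.Gon
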