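import Mathlib

set_option autoImplicit false

/-! Polynomial solutions of `∑ p_i q_i ^ 2 = ∑ p_i ^ 2 q_i = 0` in characteristic two. -/

namespace Pool.Agent.TH174.Gon

open MvPolynomial

section UFD

variable {R : Type*} [CommRing R] [IsDomain R] [UniqueFactorizationMonoid R]

/-- No prime divides all entries of `q`. -/
def Prim (q : Fin 3 → R) : Prop := ∀ π : R, Prime π → ∃ j, ¬ π ∣ q j

theorem dvd_of_prim {q : Fin 3 → R} (hq : Prim q) (d : R) :
    d ≠ 0 → ∀ w : R, (∀ j, d ∣ w * q j ^ 2) → d ∣ w := by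
  induction d using UniqueFactorizationMonoid.induction_on_prime with
  | h₁ => intro h; exact absurd rfl h
  | h₂ x hx => intro _ w _; exact hx.dvd
  | h₃ a π ha hπ ih =>
    intro _ w hw
    obtain ⟨j, hj⟩ := hq π hπ
    have h1 : π ∣ w := by
      have := (Dvd.intro a rfl : π ∣ π * a).trans (hw j)
      rcases hπ.dvd_or_dvd this with h | h
      · exact h
      · exact absurd (hπ.dvd_of_dvd_pow h) hj
    obtain ⟨w', rfl⟩ := h1
    refine mul_dvd_mul_left π (ih ha w' (fun j => ?_))
    have := hw j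
    rw [mul_assoc] at this
    exact (mul_dvd_mul_iff_left hπ.ne_zero).1 this

/-- Every nonzero vector is a multiple of a primitive one. -/
theorem exists_prim (x : Fin 3 → R) (hx : x ≠ 0) : ∃ (c : R) (q : Fin 3 → R), c ≠ 0 ∧
    (∀ j, x j = c * q j) ∧ Prim q := by
  obtain ⟨j0, hj0⟩ := Function.ne_iff.1 hx
  have key : ∀ (a : R), a ≠ 0 → ∀ x : Fin 3 → R, x j0 = a → ∃ (c : R) (q : Fin 3 → R), c ≠ 0 ∧
      (∀ j, x j = c * q j) ∧ Prim q := by
    intro a
    induction a using (wellFounded_dvdNotUnit (α := R)).induction with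
    | _ a ih =>
      intro ha x hxa
      by_cases hp : Prim x
      · exact ⟨1, x, one_ne_zero, fun j => (one_mul _).symm, hp⟩
      · unfold Prim at hp
        push Not at hp
        obtain ⟨π, hπ, hd⟩ := hp
        choose x' hx' using hd
        have h0 : x' j0 ≠ 0 := by
          intro h
          apply ha
          rw [← hxa, hx' j0, h, mul_zero]
        obtain ⟨c, q, hc, h1, h2⟩ := ih (x' j0)
          ⟨h0, π, hπ.not_isUnit, by rw [← hxa, hx' j0, mul_comm]⟩ h0 x' rfl
        exact ⟨π * c, q, mul_ne_zero hπ.ne_zero hc, fun j => by rw [hx' j, h1 j, mul_assoc], h2⟩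
  exact key _ hj0 x rfl

end UFD

end Pool.Agent.TH174.Gon
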