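import Pool.Agent.TH174.Gon.Line

set_option autoImplicit false
set_option linter.unusedSimpArgs false
set_option linter.unusedSectionVars false

namespace Pool.Agent.TH174.Gon

open MvPolynomial

variable {k : Type*} [Field k] [CharP k 2] (d₀ d₁ : k)

/-- The parametrisation of the line. -/
noncomputable def rT : Fin 3 → Polynomial k :=
  ![1, Polynomial.X, Polynomial.C d₀ + Polynomial.C d₁ * Polynomial.X]

theorem rT_eval (s : k) : (fun j => (rT d₀ d₁ j).eval s) = ![1, s, d₀ + d₁ * s] := by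
  funext j
  fin_cases j <;> simp [rT]

theorem yT_ne (h : d₀ ≠ 0) : yv (rT d₀ d₁) 0 ≠ 0 := by
  intro h0
  have h1 := congrArg (fun p => (Polynomial.derivative p).eval 0) h0
  have two : (2 : Polynomial k) = 0 := CharTwo.two_eq_zero
  have four : (4 : Polynomial k) = 0 := by linear_combination 2 * two
  simp [yv, cr, rT, Polynomial.derivative_pow, four] at h1
  exact h h1

/-- The generic point of the curve, in `k(t)`. -/
noncomputable def rM : Fin 3 → M k := fun i => algebraMap (Polynomial k) (M k) (rT d₀ d₁ i)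

theorem rM_zero : rM d₀ d₁ 0 = 1 := by simp [rM, rT]
theorem rM_one : rM d₀ d₁ 1 = tM k := by simp [rM, rT, tM]

theorem yv_rM (i : Fin 3) : yv (rM d₀ d₁) i = algebraMap (Polynomial k) (M k) (yv (rT d₀ d₁) i) := by
  have := map_yv (algebraMap (Polynomial k) (M k)) (rT d₀ d₁) i
  rw [this]
  rfl

theorem y0M_ne (h : d₀ ≠ 0) : yv (rM d₀ d₁) 0 ≠ 0 := by
  rw [yv_rM, Ne, ← map_zero (algebraMap (Polynomial k) (M k))]
  exact fun h' => yT_ne d₀ d₁ h (IsFractionRing.injective _ (M k) h')

/-- The function field of the curve. -/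
noncomputable def N : IntermediateField k (M k) :=
  IntermediateField.adjoin k {tM k ^ 2, yv (rM d₀ d₁) 1 / yv (rM d₀ d₁) 0,
    yv (rM d₀ d₁) 2 / yv (rM d₀ d₁) 0}

theorem t2_mem : tM k ^ 2 ∈ N d₀ d₁ := IntermediateField.subset_adjoin _ _ (by simp)
theorem y1_mem : yv (rM d₀ d₁) 1 / yv (rM d₀ d₁) 0 ∈ N d₀ d₁ :=
  IntermediateField.subset_adjoin _ _ (by simp)
theorem y2_mem : yv (rM d₀ d₁) 2 / yv (rM d₀ d₁) 0 ∈ N d₀ d₁ :=
  IntermediateField.subset_adjoin _ _ (by simp)

/-- Coordinates of the generic point. -/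
noncomputable def ξN : Fin 3 → N d₀ d₁ :=
  ![1, ⟨tM k ^ 2, t2_mem d₀ d₁⟩, algebraMap k (N d₀ d₁) (d₀ ^ 2) +
    algebraMap k (N d₀ d₁) (d₁ ^ 2) * ⟨tM k ^ 2, t2_mem d₀ d₁⟩]

/-- Coordinates of the generic point. -/
noncomputable def ηN : Fin 3 → N d₀ d₁ :=
  ![1, ⟨_, y1_mem d₀ d₁⟩, ⟨_, y2_mem d₀ d₁⟩]

theorem ξN_coe (i : Fin 3) : ((ξN d₀ d₁ i : N d₀ d₁) : M k) = xv (rM d₀ d₁) i := by
  have two : (2 : M k) = 0 := CharTwo.two_eq_zero
  fin_cases i
  · simp [ξN, xv, rM_zero]
  · simp [ξN, xv, rM_one]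
  · have e1 : rM d₀ d₁ 2 = algebraMap k (M k) d₀ + algebraMap k (M k) d₁ * tM k := by
      simp only [rM, rT, Fin.isValue, Matrix.cons_val, map_add, map_mul, tM]
      rw [IsScalarTower.algebraMap_apply k (Polynomial k) (M k),
        IsScalarTower.algebraMap_apply k (Polynomial k) (M k)]
      rfl
    have e2 : ((ξN d₀ d₁ 2 : N d₀ d₁) : M k) = algebraMap k (M k) (d₀ ^ 2) +
        algebraMap k (M k) (d₁ ^ 2) * tM k ^ 2 := by
      simp only [ξN, Fin.isValue, Matrix.cons_val]
      rfl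
    show ((ξN d₀ d₁ 2 : N d₀ d₁) : M k) = xv (rM d₀ d₁) 2
    rw [e2]
    unfold xv
    rw [e1, map_pow, map_pow]
    linear_combination -(algebraMap k (M k) d₀ * (algebraMap k (M k) d₁ * tM k)) * two

theorem ηN_coe (h : d₀ ≠ 0) (i : Fin 3) :
    yv (rM d₀ d₁) 0 * ((ηN d₀ d₁ i : N d₀ d₁) : M k) = yv (rM d₀ d₁) i := by
  have h0 := y0M_ne d₀ d₁ h
  fin_cases i
  · simp [ηN]
  · simp only [ηN, Fin.mk_one, Fin.isValue, Matrix.cons_val_one, Matrix.cons_val_zero]
    field_simp
  · simp only [ηN, Fin.reduceFinMk, Fin.isValue, Matrix.cons_val]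
    field_simp

theorem aeval_coeN (h : d₀ ≠ 0) (P : MvPolynomial (Fin 3 ⊕ Fin 3) k) {m n : ℕ}
    (hP : IsBihomogeneous P m n) :
    aeval (Sum.elim (ξN d₀ d₁) (ηN d₀ d₁)) P = 0 ↔
      aeval (Sum.elim (xv (rT d₀ d₁)) (yv (rT d₀ d₁))) P = (0 : Polynomial k) := by
  have h0 := y0M_ne d₀ d₁ h
  have e1 : aeval (Sum.elim (xv (rM d₀ d₁)) (yv (rM d₀ d₁))) P =
      yv (rM d₀ d₁) 0 ^ n * ((aeval (Sum.elim (ξN d₀ d₁) (ηN d₀ d₁)) P : N d₀ d₁) : M k) := by
    have e2 : ((aeval (Sum.elim (ξN d₀ d₁) (ηN d₀ d₁)) P : N d₀ d₁) : M k) =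
        aeval (Sum.elim (fun i => ((ξN d₀ d₁ i : N d₀ d₁) : M k))
          (fun i => ((ηN d₀ d₁ i : N d₀ d₁) : M k))) P := by
      have := comp_aeval_apply (f := Sum.elim (ξN d₀ d₁) (ηN d₀ d₁)) (N d₀ d₁).val P
      rw [← IntermediateField.coe_val, this]
      congr 2
      funext s
      rcases s with i | i <;> rfl
    rw [e2]
    have e3 := aeval_smul hP (1 : M k) (yv (rM d₀ d₁) 0) (fun i => ((ξN d₀ d₁ i : N d₀ d₁) : M k))
      (fun i => ((ηN d₀ d₁ i : N d₀ d₁) : M k))
    rw [one_pow, one_mul, one_smul] at e3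
    rw [← e3]
    congr 2
    funext s
    rcases s with i | i
    · exact (ξN_coe d₀ d₁ i).symm
    · exact (ηN_coe d₀ d₁ h i).symm
  have e4 : aeval (Sum.elim (xv (rM d₀ d₁)) (yv (rM d₀ d₁))) P =
      algebraMap (Polynomial k) (M k) (aeval (Sum.elim (xv (rT d₀ d₁)) (yv (rT d₀ d₁))) P) := by
    have := comp_aeval_apply (f := Sum.elim (xv (rT d₀ d₁)) (yv (rT d₀ d₁)))
      (IsScalarTower.toAlgHom k (Polynomial k) (M k)) P
    rw [IsScalarTower.coe_toAlgHom'] at this
    rw [this]
    congr 2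
    funext s
    rcases s with i | i
    · simp only [Sum.elim_inl]
      rw [map_xv]
      rfl
    · simp only [Sum.elim_inr]
      rw [map_yv]
      rfl
  rw [e4] at e1
  constructor
  · intro h
    rw [h] at e1
    apply IsFractionRing.injective (Polynomial k) (M k)
    rw [e1]
    simp
  · intro h
    rw [h, map_zero] at e1
    have := (mul_eq_zero.1 e1.symm).resolve_left (pow_ne_zero n h0)
    exact Subtype.ext this

theorem curveField [Infinite k] [PerfectRing k 2] (c : Fin 3 → k) (hc : eval c (moore k) ≠ 0) :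
    ∃ d₀ d₁ : k, IsFunctionField (lineCurve c) (N d₀ d₁) (ξN d₀ d₁) (ηN d₀ d₁) := by
  choose g hg using fun i => exists_sqrt (c i)
  have two : (2 : k) = 0 := CharTwo.two_eq_zero
  have hgen : ∀ r : Fin 3 → k, r ≠ 0 → ∑ i, g i * r i = 0 → yv r ≠ 0 :=
    fun r => yv_ne_of_moore hc hg
  have hg0 : g 0 ≠ 0 := by
    intro h
    apply hgen ![1, 0, 0] (fun h' => one_ne_zero (congrFun h' 0))
    · simp [Fin.sum_univ_three, h]
    · funext i
      fin_cases i <;> simp [yv, cr]
  have hg2 : g 2 ≠ 0 := by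
    intro h
    apply hgen ![0, 0, 1] (fun h' => one_ne_zero (congrFun h' 2))
    · simp [Fin.sum_univ_three, h]
    · funext i
      fin_cases i <;> simp [yv, cr]
  set d₀ := g 0 / g 2 with hd₀
  set d₁ := g 1 / g 2 with hd₁
  have hd0 : d₀ ≠ 0 := div_ne_zero hg0 hg2
  have hsum : ∀ r : Fin 3 → k, ∑ i, c i * xv r i = (∑ i, g i * r i) ^ 2 := by
    intro r
    rw [sum_pow_char 2]
    refine Finset.sum_congr rfl (fun i _ => ?_)
    rw [← hg i]
    unfold xv
    ring
  refine ⟨d₀, d₁, ⟨fun h => one_ne_zero (congrFun h 0), fun h => one_ne_zero (congrFun h 0), ?_, ?_⟩⟩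
  · intro P m n hP
    rw [aeval_coeN d₀ d₁ hd0 P hP]
    constructor
    · intro h
      have h1 : ∀ r : Fin 3 → k, r 0 ≠ 0 → ∑ i, g i * r i = 0 →
          eval (Sum.elim (xv r) (yv r)) P = 0 := by
        intro r hr hgr
        have e1 := congrArg (Polynomial.eval (r 1 / r 0)) h
        rw [eval_param, rT_eval, Polynomial.eval_zero] at e1
        have e2 : r = r 0 • ![1, r 1 / r 0, d₀ + d₁ * (r 1 / r 0)] := by
          funext i
          fin_cases i
          · simp
          · simp only [Fin.mk_one, Fin.isValue, Pi.smul_apply, Matrix.cons_val_one,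
              Matrix.cons_val_zero, smul_eq_mul]
            field_simp
          · simp only [Fin.reduceFinMk, Fin.isValue, Pi.smul_apply, Matrix.cons_val, smul_eq_mul,
              hd₀, hd₁]
            rw [Fin.sum_univ_three] at hgr
            field_simp
            linear_combination hgr - (g 0 * r 0 + g 1 * r 1) * two
        rw [e2, xv_smul, yv_smul, eval_smul hP]
        have e3 : eval (Sum.elim (xv ![1, r 1 / r 0, d₀ + d₁ * (r 1 / r 0)])
            (yv ![1, r 1 / r 0, d₀ + d₁ * (r 1 / r 0)])) P = 0 := e1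
        rw [e3, mul_zero]
      rintro ⟨x, y⟩ ⟨hz, hl⟩
      obtain ⟨r, hr0, rfl, h2, h3⟩ := surf_param hz
      have hgr : ∑ i, g i * r i = 0 := by
        have : (∑ i, g i * r i) ^ 2 = 0 := by
          rw [← hsum]
          exact hl
        exact pow_eq_zero_iff (two_ne_zero) |>.1 this
      obtain ⟨b, hb⟩ := cr_par h2 h3 (hgen r hr0 hgr)
      have e1 := eval_smul hP 1 b (xv r) (yv r)
      have e0 : eval (Sum.elim (xv r) (yv r)) P = 0 := by
        by_cases hr : r 0 = 0
        · let f : Fin 3 → Polynomial k := fun i => Polynomial.C (r i) +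
            Polynomial.X * Polynomial.C ((![1, 0, d₀] : Fin 3 → k) i)
          have hH : (aeval (Sum.elim (xv f) (yv f)) P : Polynomial k) = 0 := by
            apply poly_zero
            intro e he
            rw [eval_param]
            apply h1
            · simp [f, hr, he]
            · rw [Fin.sum_univ_three] at hgr ⊢
              simp [f]
              rw [hd₀]
              field_simp
              linear_combination hgr + (g 0 * e) * two
          have h2 := congrArg (Polynomial.eval 0) hH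
          rw [eval_param, Polynomial.eval_zero] at h2
          rw [← h2]
          have h3 : (fun j => (f j).eval 0) = r := by
            funext j
            fin_cases j <;> simp [f]
          rw [h3]
        · exact h1 r hr hgr
      rw [one_smul, e0, mul_zero] at e1
      rw [← e1]
      show eval (Sum.elim (xv r) y) P = _
      congr 1
      rw [hb]
      rfl
    · intro h
      apply Polynomial.funext
      intro s
      rw [eval_param, rT_eval, Polynomial.eval_zero]
      have hr0 : (![1, s, d₀ + d₁ * s] : Fin 3 → k) ≠ 0 := fun h' => one_ne_zero (congrFun h' 0)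
      have hgr : ∑ i, g i * (![1, s, d₀ + d₁ * s] : Fin 3 → k) i = 0 := by
        rw [Fin.sum_univ_three]
        simp [hd₀, hd₁]
        field_simp
        linear_combination (g 0 + g 1 * s) * two
      exact h (_, _) ⟨mem_surf_yv hr0 (hgen _ hr0 hgr), by
        show ∑ i, c i * xv _ i = 0
        rw [hsum, hgr]
        simp⟩
  · set T := IntermediateField.adjoin k {f : N d₀ d₁ | ∃ i j, f = ξN d₀ d₁ i / ξN d₀ d₁ j ∨
      f = ηN d₀ d₁ i / ηN d₀ d₁ j} with hT
    have h1 : IntermediateField.lift T = N d₀ d₁ := by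
      apply le_antisymm (IntermediateField.lift_le T)
      conv_lhs => unfold N
      rw [IntermediateField.adjoin_le_iff]
      have m1 : ξN d₀ d₁ 1 ∈ T := IntermediateField.subset_adjoin _ _ ⟨1, 0, Or.inl (by simp [ξN])⟩
      have m2 : ηN d₀ d₁ 1 ∈ T := IntermediateField.subset_adjoin _ _ ⟨1, 0, Or.inr (by simp [ηN])⟩
      have m3 : ηN d₀ d₁ 2 ∈ T := IntermediateField.subset_adjoin _ _ ⟨2, 0, Or.inr (by simp [ηN])⟩
      intro x hx
      simp only [Set.mem_insert_iff, Set.mem_singleton_iff] at hx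
      rcases hx with rfl | rfl | rfl
      · exact (IntermediateField.mem_lift (⟨_, t2_mem d₀ d₁⟩ : N d₀ d₁)).2 m1
      · exact (IntermediateField.mem_lift (⟨_, y1_mem d₀ d₁⟩ : N d₀ d₁)).2 m2
      · exact (IntermediateField.mem_lift (⟨_, y2_mem d₀ d₁⟩ : N d₀ d₁)).2 m3
    apply IntermediateField.lift_injective
    rw [h1, IntermediateField.lift_top]

end Pool.Agent.TH174.Gon
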