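import Mathlib

set_option autoImplicit false

/-! Closed subvarieties of `ℙ² × ℙ²`, their function fields, dominant rational maps to the plane,
gonality, and the surface `∑ x_i y_i ^ 2 = ∑ x_i ^ 2 y_i = 0`. -/

namespace Pool.Agent.TH174.Gon

open MvPolynomial

/-- `P` is a polynomial in the homogeneous coordinates `x = (x_0, x_1, x_2)` and
`y = (y_0, y_1, y_2)` of `ℙ² × ℙ²`, bihomogeneous of bidegree `(m, n)`. -/
def IsBihomogeneous {k : Type*} [Field k] (P : MvPolynomial (Fin 3 ⊕ Fin 3) k) (m n : ℕ) : Prop :=
  ∀ d ∈ P.support, ∑ i, d (Sum.inl i) = m ∧ ∑ i, d (Sum.inr i) = n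

/-- `K` is the function field of the irreducible closed subvariety of `ℙ² × ℙ²` whose points have
the pairs `(x, y) ∈ Z` of nonzero vectors as homogeneous coordinates, and `(ξ, η)` are homogeneous
coordinates of its generic point: a bihomogeneous polynomial vanishes at `(ξ, η)` exactly if it
vanishes on `Z`, and `K` is generated over `k` by the ratios of the coordinates. -/
structure IsFunctionField {k : Type*} [Field k] (Z : Set ((Fin 3 → k) × (Fin 3 → k)))
    (K : Type*) [Field K] [Algebra k K] (ξ η : Fin 3 → K) : Prop where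
  ξ_ne_zero : ξ ≠ 0
  η_ne_zero : η ≠ 0
  generic : ∀ (P : MvPolynomial (Fin 3 ⊕ Fin 3) k) (m n : ℕ), IsBihomogeneous P m n →
    (aeval (Sum.elim ξ η) P = 0 ↔ ∀ z ∈ Z, eval (Sum.elim z.1 z.2) P = 0)
  generates : IntermediateField.adjoin k {f : K | ∃ i j, f = ξ i / ξ j ∨ f = η i / η j} = ⊤

/-- A dominant rational map to the projective plane from a surface with function field `K`, given by
its affine coordinates: two algebraically independent rational functions. -/
def IsDominant (k : Type*) [Field k] {K : Type*} [Field K] [Algebra k K] (φ : Fin 2 → K) : Prop :=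
  AlgebraicIndependent k φ

/-- The degree of the rational map with affine coordinates `φ`: the degree of the function field
over the subfield of the functions that come from the plane. -/
noncomputable def mapDegree (k : Type*) [Field k] {K : Type*} [Field K] [Algebra k K]
    (φ : Fin 2 → K) : Cardinal :=
  Module.rank (IntermediateField.adjoin k (Set.range φ)) K

/-- `d` is the gonality of the curve with function field `K`: the least degree of a nonconstant map
to the projective line. -/
def HasGonality (k : Type*) [Field k] (K : Type*) [Field K] [Algebra k K] (d : ℕ) : Prop :=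
  IsLeast {n : ℕ | 0 < n ∧ ∃ f : K, Transcendental k f ∧
    Module.finrank (IntermediateField.adjoin k {f}) K = n} d

/-- The equation `∑ x_i y_i ^ 2`, of bidegree `(1, 2)`. -/
noncomputable def F₁ (k : Type*) [Field k] : MvPolynomial (Fin 3 ⊕ Fin 3) k :=
  ∑ i, X (Sum.inl i) * X (Sum.inr i) ^ 2

/-- The equation `∑ x_i ^ 2 y_i`, of bidegree `(2, 1)`. -/
noncomputable def F₂ (k : Type*) [Field k] : MvPolynomial (Fin 3 ⊕ Fin 3) k :=
  ∑ i, X (Sum.inl i) ^ 2 * X (Sum.inr i)

/-- The surface `X : F₁ = F₂ = 0` in `ℙ² × ℙ²`, as the set of the pairs of homogeneous coordinate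
vectors of its points. -/
def surf (k : Type*) [Field k] : Set ((Fin 3 → k) × (Fin 3 → k)) :=
  {z | z.1 ≠ 0 ∧ z.2 ≠ 0 ∧ eval (Sum.elim z.1 z.2) (F₁ k) = 0 ∧ eval (Sum.elim z.1 z.2) (F₂ k) = 0}

/-- The gradient of `P` at the point with homogeneous coordinates `z`. -/
noncomputable def grad {k : Type*} [Field k] (P : MvPolynomial (Fin 3 ⊕ Fin 3) k)
    (z : (Fin 3 → k) × (Fin 3 → k)) : Fin 3 ⊕ Fin 3 → k :=
  fun s => eval (Sum.elim z.1 z.2) (pderiv s P)

/-- The preimage of the line `∑ c_i x_i = 0` under the first projection of the surface. -/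
def lineCurve {k : Type*} [Field k] (c : Fin 3 → k) : Set ((Fin 3 → k) × (Fin 3 → k)) :=
  {z ∈ surf k | ∑ i, c i * z.1 i = 0}

end Pool.Agent.TH174.Gon
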