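import Pool.Agent.TH174.Gon.Gen

set_option autoImplicit false
set_option linter.unusedSimpArgs false
set_option linter.unusedSectionVars false

namespace Pool.Agent.TH174.Gon

open MvPolynomial

variable (k : Type*) [Field k] [CharP k 2]

/-- Affine coordinates of the first projection. -/
noncomputable def ψ : Fin 2 → K k := fun i => ξ k i.succ / ξ k 0

theorem ψ_zero : ((ψ k 0 : K k) : L k) = aL k ^ 2 := by simp [ψ, ξ]
theorem ψ_one : ((ψ k 1 : K k) : L k) = bL k ^ 2 := by
  simp only [ψ, ξ, Fin.isValue, Fin.succ_one_eq_two, Matrix.cons_val, Matrix.cons_val_zero, div_one]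

theorem ψ_dominant [Infinite k] [PerfectRing k 2] : IsDominant k (ψ k) := by
  unfold IsDominant
  rw [algebraicIndependent_iff]
  intro Q hQ
  have e1 : ((aeval (ψ k) Q : K k) : L k) =
      algebraMap (MvPolynomial (Fin 2) k) (L k) (aeval ![X 0 ^ 2, X 1 ^ 2] Q) := by
    have h1 := comp_aeval_apply (f := ψ k) (K k).val Q
    have h2 := comp_aeval_apply (f := ![X 0 ^ 2, X 1 ^ 2])
      (IsScalarTower.toAlgHom k (MvPolynomial (Fin 2) k) (L k)) Q
    rw [IsScalarTower.coe_toAlgHom'] at h2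
    rw [← IntermediateField.coe_val, h1, h2]
    congr 2
    funext i
    fin_cases i
    · simp only [Fin.zero_eta, Fin.isValue, IntermediateField.coe_val, ψ_zero, aL,
        Matrix.cons_val_zero, map_pow]
    · simp only [Fin.mk_one, Fin.isValue, IntermediateField.coe_val, ψ_one, bL,
        Matrix.cons_val_one, Matrix.cons_val_zero, map_pow]
  rw [hQ] at e1
  have e2 : (aeval ![X 0 ^ 2, X 1 ^ 2] Q : MvPolynomial (Fin 2) k) = 0 := by
    apply IsFractionRing.injective (MvPolynomial (Fin 2) k) (L k)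
    rw [← e1]
    simp
  apply MvPolynomial.funext
  intro t
  obtain ⟨s0, h0⟩ := exists_sqrt (t 0)
  obtain ⟨s1, h1⟩ := exists_sqrt (t 1)
  have e3 := congrArg (eval ![s0, s1]) e2
  have h := map_aeval ![X 0 ^ 2, X 1 ^ 2] (eval ![s0, s1]) Q
  rw [h, coe_eval₂Hom, eval₂_eq', map_zero] at e3
  rw [map_zero, ← e3, eval_eq']
  refine Finset.sum_congr rfl (fun d _ => ?_)
  simp [← h0, ← h1]

theorem c_sq_mem : (⟨c₁ k, c₁_mem k⟩ : K k) ^ 2 ∈ IntermediateField.adjoin k (Set.range (ψ k)) := by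
  have m0 : ψ k 0 ∈ IntermediateField.adjoin k (Set.range (ψ k)) :=
    IntermediateField.subset_adjoin _ _ ⟨0, rfl⟩
  have m1 : ψ k 1 ∈ IntermediateField.adjoin k (Set.range (ψ k)) :=
    IntermediateField.subset_adjoin _ _ ⟨1, rfl⟩
  have e : (⟨c₁ k, c₁_mem k⟩ : K k) ^ 2 = (ψ k 1 + ψ k 1 ^ 4) / (ψ k 0 * ψ k 1 ^ 4 + ψ k 1 * ψ k 0 ^ 4) := by
    apply Subtype.ext
    have two : (2 : L k) = 0 := CharTwo.two_eq_zero
    push_cast
    rw [ψ_zero, ψ_one]
    unfold c₁
    have h0 := y0_ne k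
    have h1 : aL k ^ 2 * (bL k ^ 2) ^ 4 + bL k ^ 2 * (aL k ^ 2) ^ 4 = yv (rL k) 0 ^ 2 := by
      simp only [yv, cr, rL_one, rL_two, Fin.isValue, Matrix.cons_val_zero]
      linear_combination -(aL k * bL k ^ 4 * bL k * aL k ^ 4) * two
    have h2 : bL k ^ 2 + (bL k ^ 2) ^ 4 = yv (rL k) 1 ^ 2 := by
      simp only [yv, cr, rL_zero, rL_one, rL_two, Fin.isValue, Matrix.cons_val_zero,
        Matrix.cons_val_one]
      linear_combination -(bL k * bL k ^ 4) * two
    rw [h1, h2, div_pow]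
  rw [e]
  exact div_mem (add_mem m1 (pow_mem m1 4)) (add_mem (mul_mem m0 (pow_mem m1 4))
    (mul_mem m1 (pow_mem m0 4)))

theorem span_c (z : K k) : ∃ x y : K k, x ∈ IntermediateField.adjoin k (Set.range (ψ k)) ∧
    y ∈ IntermediateField.adjoin k (Set.range (ψ k)) ∧ z = x + y * ⟨c₁ k, c₁_mem k⟩ := by
  set E := IntermediateField.adjoin k (Set.range (ψ k)) with hE
  set c : K k := ⟨c₁ k, c₁_mem k⟩ with hc
  have two : (2 : K k) = 0 := CharTwo.two_eq_zero
  have m0 : ψ k 0 ∈ E := IntermediateField.subset_adjoin _ _ ⟨0, rfl⟩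
  have m1 : ψ k 1 ∈ E := IntermediateField.subset_adjoin _ _ ⟨1, rfl⟩
  have hc2 : c ^ 2 ∈ E := c_sq_mem k
  have key : ∀ z : L k, z ∈ K k → ∃ x y : K k, x ∈ E ∧ y ∈ E ∧ z = ((x + y * c : K k) : L k) := by
    intro z hz
    induction hz using IntermediateField.adjoin_induction with
    | mem x hx =>
      simp only [Set.mem_insert_iff, Set.mem_singleton_iff] at hx
      rcases hx with rfl | rfl | rfl
      · exact ⟨ψ k 0, 0, m0, E.zero_mem, by rw [zero_mul, add_zero, ψ_zero]⟩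
      · exact ⟨ψ k 1, 0, m1, E.zero_mem, by rw [zero_mul, add_zero, ψ_one]⟩
      · exact ⟨0, 1, E.zero_mem, E.one_mem, by rw [one_mul, zero_add]⟩
    | algebraMap x =>
      exact ⟨algebraMap k (K k) x, 0, E.algebraMap_mem x, E.zero_mem, by
        rw [zero_mul, add_zero]; rfl⟩
    | add x y _ _ hx hy =>
      obtain ⟨p, q, hp, hq, rfl⟩ := hx
      obtain ⟨p', q', hp', hq', rfl⟩ := hy
      refine ⟨p + p', q + q', add_mem hp hp', add_mem hq hq', ?_⟩
      push_cast
      ring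
    | inv x _ hx =>
      obtain ⟨p, q, hp, hq, h⟩ := hx
      by_cases h0 : p + q * c = 0
      · exact ⟨0, 0, E.zero_mem, E.zero_mem, by rw [h, h0]; simp⟩
      · have h1 : p ^ 2 + q ^ 2 * c ^ 2 ∈ E := add_mem (pow_mem hp 2) (mul_mem (pow_mem hq 2) hc2)
        have h2 : p ^ 2 + q ^ 2 * c ^ 2 = (p + q * c) ^ 2 := by
          linear_combination -(p * q * c) * two
        refine ⟨p / (p ^ 2 + q ^ 2 * c ^ 2), q / (p ^ 2 + q ^ 2 * c ^ 2), div_mem hp h1,
          div_mem hq h1, ?_⟩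
        rw [h, h2]
        have h3 : (p / (p + q * c) ^ 2 + q / (p + q * c) ^ 2 * c : K k) = (p + q * c)⁻¹ := by
          field_simp
        rw [h3]
        rfl
    | mul x y _ _ hx hy =>
      obtain ⟨p, q, hp, hq, rfl⟩ := hx
      obtain ⟨p', q', hp', hq', rfl⟩ := hy
      refine ⟨p * p' + q * q' * c ^ 2, p * q' + q * p', add_mem (mul_mem hp hp')
        (mul_mem (mul_mem hq hq') hc2), add_mem (mul_mem hp hq') (mul_mem hq hp'), ?_⟩
      push_cast
      ring
  obtain ⟨x, y, hx, hy, h⟩ := key z z.2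
  exact ⟨x, y, hx, hy, Subtype.ext h⟩

theorem E_sq [PerfectRing k 2] {z : K k} (hz : z ∈ IntermediateField.adjoin k (Set.range (ψ k))) :
    ∃ p : L k, (z : L k) = p ^ 2 := by
  have two : (2 : L k) = 0 := CharTwo.two_eq_zero
  induction hz using IntermediateField.adjoin_induction with
  | mem x hx =>
    obtain ⟨i, rfl⟩ := hx
    fin_cases i
    · exact ⟨aL k, ψ_zero k⟩
    · exact ⟨bL k, ψ_one k⟩
  | algebraMap x =>
    obtain ⟨b, hb⟩ := exists_sqrt x
    refine ⟨algebraMap k (L k) b, ?_⟩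
    rw [← map_pow, hb]
    rfl
  | add x y _ _ hx hy =>
    obtain ⟨p, hp⟩ := hx
    obtain ⟨q, hq⟩ := hy
    refine ⟨p + q, ?_⟩
    push_cast
    rw [hp, hq]
    linear_combination -(p * q) * two
  | inv x _ hx =>
    obtain ⟨p, hp⟩ := hx
    refine ⟨p⁻¹, ?_⟩
    push_cast
    rw [hp, inv_pow]
  | mul x y _ _ hx hy =>
    obtain ⟨p, hp⟩ := hx
    obtain ⟨q, hq⟩ := hy
    refine ⟨p * q, ?_⟩
    push_cast
    rw [hp, hq, mul_pow]

theorem mapDegree_ψ [PerfectRing k 2] : mapDegree k (ψ k) = 2 := by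
  unfold mapDegree
  set E := IntermediateField.adjoin k (Set.range (ψ k)) with hE
  set c : K k := ⟨c₁ k, c₁_mem k⟩ with hc
  have hcE : c ∉ E := by
    intro h
    obtain ⟨p, hp⟩ := E_sq k h
    exact c₁_not_sq k p hp
  have hli : LinearIndependent E ![(1 : K k), c] := by
    rw [LinearIndependent.pair_iff]
    intro s t hst
    rw [Algebra.smul_def, Algebra.smul_def, mul_one] at hst
    have ht : t = 0 := by
      by_contra ht
      apply hcE
      have ht' : algebraMap E (K k) t ≠ 0 := by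
        rw [Ne, ← map_zero (algebraMap E (K k))]
        exact fun h => ht ((algebraMap E (K k)).injective h)
      have : c = algebraMap E (K k) (-s / t) := by
        rw [map_div₀, map_neg, eq_div_iff ht']
        linear_combination hst
      rw [this]
      exact (-s / t).2
    refine ⟨?_, ht⟩
    rw [ht, map_zero, zero_mul, add_zero] at hst
    exact (map_eq_zero _).1 hst
  have hsp : ⊤ ≤ Submodule.span E (Set.range ![(1 : K k), c]) := by
    intro z _
    obtain ⟨x, y, hx, hy, h⟩ := span_c k z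
    have h1 : z = (⟨x, hx⟩ : E) • (1 : K k) + (⟨y, hy⟩ : E) • c := by
      rw [Algebra.smul_def, Algebra.smul_def, mul_one]
      exact h
    rw [h1]
    refine add_mem (Submodule.smul_mem _ _ (Submodule.subset_span ⟨0, rfl⟩))
      (Submodule.smul_mem _ _ (Submodule.subset_span ⟨1, rfl⟩))
  have := rank_eq_card_basis (Module.Basis.mk hli hsp)
  rw [this]
  simp

end Pool.Agent.TH174.Gon
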