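import Pool.Agent.TH174.Gon.Geo

set_option autoImplicit false
set_option linter.unusedSimpArgs false

namespace Pool.Agent.TH174.Gon

open MvPolynomial

section sq

variable {k : Type*} [Field k] [CharP k 2] {σ : Type*} {F : Type*} [Field F]
    [Algebra (MvPolynomial σ k) F] [IsFractionRing (MvPolynomial σ k) F]

/-- A polynomial which is a square of a rational function has zero derivatives. -/
theorem pderiv_of_sq {f : MvPolynomial σ k} {g : F}
    (h : algebraMap (MvPolynomial σ k) F f = g ^ 2) (i : σ) : pderiv i f = 0 := by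
  obtain ⟨s, t, ht, hst⟩ := IsFractionRing.div_surjective (MvPolynomial σ k) g
  have ht0 : algebraMap (MvPolynomial σ k) F t ≠ 0 :=
    IsFractionRing.to_map_ne_zero_of_mem_nonZeroDivisors ht
  have h1 : f * t ^ 2 = s ^ 2 := by
    apply IsFractionRing.injective (MvPolynomial σ k) F
    rw [map_mul, map_pow, map_pow, h, ← hst]
    field_simp
  have h2 := congrArg (pderiv i) h1
  have two : (2 : MvPolynomial σ k) = 0 := CharTwo.two_eq_zero
  simp only [Derivation.leibniz, smul_eq_mul, Derivation.leibniz_pow, nsmul_eq_mul,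
    Nat.cast_ofNat, two, zero_mul, mul_zero, zero_add] at h2
  have ht' : t ≠ 0 := nonZeroDivisors.ne_zero ht
  exact (mul_eq_zero.1 h2).resolve_left (pow_ne_zero 2 ht')

end sq

section field

variable (k : Type*) [Field k]

/-- The field `k(a, b)`. -/
abbrev L := FractionRing (MvPolynomial (Fin 2) k)

/-- The coordinate functions. -/
noncomputable def aL : L k := algebraMap (MvPolynomial (Fin 2) k) (L k) (X 0)
/-- The coordinate functions. -/
noncomputable def bL : L k := algebraMap (MvPolynomial (Fin 2) k) (L k) (X 1)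

/-- The generic point. -/
noncomputable def ρ : Fin 3 → MvPolynomial (Fin 2) k := ![1, X 0, X 1]

/-- The generic point. -/
noncomputable def rL : Fin 3 → L k := fun i => algebraMap (MvPolynomial (Fin 2) k) (L k) (ρ k i)

theorem rL_zero : rL k 0 = 1 := by simp [rL, ρ]
theorem rL_one : rL k 1 = aL k := by simp [rL, ρ, aL]
theorem rL_two : rL k 2 = bL k := by simp [rL, ρ, bL]

theorem yv_rL (i : Fin 3) : yv (rL k) i = algebraMap (MvPolynomial (Fin 2) k) (L k) (yv (ρ k) i) := by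
  rw [map_yv]
  rfl

theorem yv_ρ_zero : yv (ρ k) 0 = X 0 * X 1 ^ 4 + X 1 * X 0 ^ 4 := by simp [yv, cr, ρ]
theorem yv_ρ_one : yv (ρ k) 1 = X 1 + X 1 ^ 4 := by simp [yv, cr, ρ]
theorem yv_ρ_two : yv (ρ k) 2 = X 0 ^ 4 + X 0 := by simp [yv, cr, ρ]

variable [CharP k 2]

theorem two_poly : (2 : MvPolynomial (Fin 2) k) = 0 := CharTwo.two_eq_zero

theorem four_poly : (4 : MvPolynomial (Fin 2) k) = 0 := by
  have := two_poly k
  linear_combination 2 * this

theorem pd0 : pderiv 0 (yv (ρ k) 0) = X 1 ^ 4 := by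
  rw [yv_ρ_zero]
  simp [Derivation.leibniz_pow, four_poly k, pderiv_X]

theorem pd1 : pderiv 1 (yv (ρ k) 1) = 1 := by
  rw [yv_ρ_one]
  simp [Derivation.leibniz_pow, four_poly k, pderiv_X]

theorem pd01 : pderiv 0 (yv (ρ k) 1) = 0 := by
  rw [yv_ρ_one]
  simp [Derivation.leibniz_pow, four_poly k, pderiv_X]

theorem yv_ρ_zero_ne : yv (ρ k) 0 ≠ 0 := by
  intro h
  have h1 := pd0 k
  rw [h, map_zero] at h1
  exact pow_ne_zero 4 (X_ne_zero (R := k) (1 : Fin 2)) h1.symm

theorem yv_ρ_one_ne : yv (ρ k) 1 ≠ 0 := by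
  intro h
  have h1 := pd1 k
  rw [h, map_zero] at h1
  exact one_ne_zero h1.symm

theorem y0_ne : yv (rL k) 0 ≠ 0 := by
  rw [yv_rL, Ne, ← map_zero (algebraMap (MvPolynomial (Fin 2) k) (L k))]
  exact fun h => yv_ρ_zero_ne k (IsFractionRing.injective _ (L k) h)

/-- The function `y_1 / y_0`. -/
noncomputable def c₁ : L k := yv (rL k) 1 / yv (rL k) 0
/-- The function `y_2 / y_0`. -/
noncomputable def c₂ : L k := yv (rL k) 2 / yv (rL k) 0

theorem c₁_not_sq (g : L k) : c₁ k ≠ g ^ 2 := by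
  intro h
  have h1 : algebraMap (MvPolynomial (Fin 2) k) (L k) (yv (ρ k) 0 * yv (ρ k) 1) =
      (g * yv (rL k) 0) ^ 2 := by
    rw [map_mul, ← yv_rL, ← yv_rL, mul_pow, ← h, c₁]
    have := y0_ne k
    field_simp
  have h2 := pderiv_of_sq h1 0
  rw [Derivation.leibniz, pd01, pd0, smul_zero, zero_add, smul_eq_mul] at h2
  exact mul_ne_zero (yv_ρ_one_ne k) (pow_ne_zero 4 (X_ne_zero (R := k) (1 : Fin 2))) h2

theorem no_rel {p q g : L k} (h : p ^ 2 * aL k + q ^ 2 * bL k = g ^ 2) : p = 0 ∧ q = 0 := by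
  obtain ⟨t, ht⟩ := IsLocalization.exist_integer_multiples_of_finite
    (nonZeroDivisors (MvPolynomial (Fin 2) k)) ![p, q]
  obtain ⟨p', hp'⟩ := ht 0
  obtain ⟨q', hq'⟩ := ht 1
  have ht0 : algebraMap (MvPolynomial (Fin 2) k) (L k) t ≠ 0 :=
    IsFractionRing.to_map_ne_zero_of_mem_nonZeroDivisors t.2
  simp only [Fin.isValue, Matrix.cons_val_zero, Matrix.cons_val_one, Algebra.smul_def] at hp' hq'
  have h1 : algebraMap (MvPolynomial (Fin 2) k) (L k) (p' ^ 2 * X 0 + q' ^ 2 * X 1) =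
      (algebraMap (MvPolynomial (Fin 2) k) (L k) t * g) ^ 2 := by
    rw [map_add, map_mul, map_mul, map_pow, map_pow, hp', hq', mul_pow _ g, ← h]
    unfold aL bL
    ring
  have two := two_poly k
  have d0 := pderiv_of_sq h1 0
  have d1 := pderiv_of_sq h1 1
  simp only [map_add, Derivation.leibniz, smul_eq_mul, Derivation.leibniz_pow, nsmul_eq_mul,
    Nat.cast_ofNat, two, zero_mul, mul_zero, zero_add, add_zero, pderiv_X] at d0 d1
  simp at d0 d1
  constructor
  · rw [d0, map_zero] at hp'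
    exact (mul_eq_zero.1 hp'.symm).resolve_left ht0
  · rw [d1, map_zero] at hq'
    exact (mul_eq_zero.1 hq'.symm).resolve_left ht0

/-- The function field of the surface. -/
noncomputable def K : IntermediateField k (L k) :=
  IntermediateField.adjoin k {aL k ^ 2, bL k ^ 2, c₁ k}

theorem mem_K [PerfectRing k 2] {z : L k} (hz : z ∈ K k) :
    ∃ p q : L k, z = p ^ 2 + q ^ 2 * c₁ k := by
  have two : (2 : L k) = 0 := CharTwo.two_eq_zero
  induction hz using IntermediateField.adjoin_induction with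
  | mem x hx =>
    simp only [Set.mem_insert_iff, Set.mem_singleton_iff] at hx
    rcases hx with rfl | rfl | rfl
    · exact ⟨aL k, 0, by ring⟩
    · exact ⟨bL k, 0, by ring⟩
    · exact ⟨0, 1, by ring⟩
  | algebraMap x =>
    obtain ⟨b, hb⟩ := exists_sqrt x
    exact ⟨algebraMap k (L k) b, 0, by rw [← hb, map_pow]; ring⟩
  | add x y _ _ hx hy =>
    obtain ⟨p, q, rfl⟩ := hx
    obtain ⟨p', q', rfl⟩ := hy
    exact ⟨p + p', q + q', by linear_combination -(p * p' + q * q' * c₁ k) * two⟩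
  | inv x _ hx =>
    obtain ⟨p, q, h⟩ := hx
    by_cases h0 : x = 0
    · exact ⟨0, 0, by rw [h0]; simp⟩
    · refine ⟨p / x, q / x, ?_⟩
      field_simp
      exact h
  | mul x y _ _ hx hy =>
    obtain ⟨p, q, rfl⟩ := hx
    obtain ⟨p', q', rfl⟩ := hy
    exact ⟨p * p' + q * q' * c₁ k, p * q' + q * p',
      by linear_combination -(p * p' * q * q' * c₁ k + p * q' * q * p' * c₁ k) * two⟩

theorem not_mem [PerfectRing k 2] : ¬ (aL k ∈ K k ∧ bL k ∈ K k) := by
  rintro ⟨ha, hb⟩
  obtain ⟨p, q, h1⟩ := mem_K k ha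
  obtain ⟨p', q', h2⟩ := mem_K k hb
  have two : (2 : L k) = 0 := CharTwo.two_eq_zero
  have h3 : q' ^ 2 * aL k + q ^ 2 * bL k = (q' * p + q * p') ^ 2 := by
    linear_combination q' ^ 2 * h1 + q ^ 2 * h2 + (q ^ 2 * q' ^ 2 * c₁ k - q' * p * q * p') * two
  obtain ⟨h4, h5⟩ := no_rel k h3
  rw [h5] at h1
  have h6 : (1 : L k) ^ 2 * aL k + 0 ^ 2 * bL k = p ^ 2 := by
    linear_combination h1
  exact one_ne_zero (no_rel k h6).1

end field

end Pool.Agent.TH174.Gon
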