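import Pool.Agent.TH174.Gon.Fld

set_option autoImplicit false
set_option linter.unusedSimpArgs false
set_option linter.unusedSectionVars false

namespace Pool.Agent.TH174.Gon

open MvPolynomial

variable (k : Type*) [Field k] [CharP k 2]

theorem aL_ne : aL k ≠ 0 := by
  unfold aL
  rw [Ne, ← map_zero (algebraMap (MvPolynomial (Fin 2) k) (L k))]
  exact fun h => X_ne_zero (R := k) (0 : Fin 2) (IsFractionRing.injective _ (L k) h)

theorem bL_ne : bL k ≠ 0 := by
  unfold bL
  rw [Ne, ← map_zero (algebraMap (MvPolynomial (Fin 2) k) (L k))]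
  exact fun h => X_ne_zero (R := k) (1 : Fin 2) (IsFractionRing.injective _ (L k) h)

theorem c₂_eq : c₂ k = (1 + (aL k ^ 2) ^ 2 * c₁ k) / (bL k ^ 2) ^ 2 := by
  have two : (2 : L k) = 0 := CharTwo.two_eq_zero
  have h0 := y0_ne k
  have hb := bL_ne k
  unfold c₂ c₁
  field_simp
  simp only [yv, cr, rL_zero, rL_one, rL_two, Fin.isValue, Matrix.cons_val_zero,
    Matrix.cons_val_one, Matrix.cons_val]
  linear_combination -(aL k ^ 4 * bL k) * two

theorem a2_mem : aL k ^ 2 ∈ K k := IntermediateField.subset_adjoin _ _ (by simp)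
theorem b2_mem : bL k ^ 2 ∈ K k := IntermediateField.subset_adjoin _ _ (by simp)
theorem c₁_mem : c₁ k ∈ K k := IntermediateField.subset_adjoin _ _ (by simp)
theorem c₂_mem : c₂ k ∈ K k := by
  rw [c₂_eq]
  exact (K k).div_mem ((K k).add_mem (K k).one_mem ((K k).mul_mem ((K k).pow_mem (a2_mem k) 2)
    (c₁_mem k))) ((K k).pow_mem (b2_mem k) 2)

/-- Coordinates of the generic point. -/
noncomputable def ξ : Fin 3 → K k :=
  ![1, ⟨aL k ^ 2, a2_mem k⟩, ⟨bL k ^ 2, b2_mem k⟩]

/-- Coordinates of the generic point. -/
noncomputable def η : Fin 3 → K k :=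
  ![1, ⟨c₁ k, c₁_mem k⟩, ⟨c₂ k, c₂_mem k⟩]

theorem ξ_coe (i : Fin 3) : ((ξ k i : K k) : L k) = xv (rL k) i := by
  fin_cases i <;> simp [ξ, xv, rL_zero, rL_one, rL_two]

theorem η_coe (i : Fin 3) : yv (rL k) 0 * ((η k i : K k) : L k) = yv (rL k) i := by
  have h0 := y0_ne k
  fin_cases i
  · simp [η]
  · simp only [η, Fin.mk_one, Fin.isValue, Matrix.cons_val_one, Matrix.cons_val_zero, c₁]
    field_simp
  · simp only [η, Fin.reduceFinMk, Fin.isValue, Matrix.cons_val, c₂]
    field_simp

theorem aeval_coe (P : MvPolynomial (Fin 3 ⊕ Fin 3) k) {m n : ℕ} (hP : IsBihomogeneous P m n) :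
    aeval (Sum.elim (ξ k) (η k)) P = 0 ↔
      aeval (Sum.elim (xv (ρ k)) (yv (ρ k))) P = (0 : MvPolynomial (Fin 2) k) := by
  have h0 := y0_ne k
  have e1 : aeval (Sum.elim (xv (rL k)) (yv (rL k))) P =
      yv (rL k) 0 ^ n * ((aeval (Sum.elim (ξ k) (η k)) P : K k) : L k) := by
    have e2 : ((aeval (Sum.elim (ξ k) (η k)) P : K k) : L k) =
        aeval (Sum.elim (fun i => ((ξ k i : K k) : L k)) (fun i => ((η k i : K k) : L k))) P := by
      have := comp_aeval_apply (f := Sum.elim (ξ k) (η k)) (K k).val P
      rw [← IntermediateField.coe_val, this]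
      congr 2
      funext s
      rcases s with i | i <;> rfl
    rw [e2]
    have e3 := aeval_smul hP (1 : L k) (yv (rL k) 0) (fun i => ((ξ k i : K k) : L k))
      (fun i => ((η k i : K k) : L k))
    rw [one_pow, one_mul, one_smul] at e3
    rw [← e3]
    congr 2
    funext s
    rcases s with i | i
    · exact (ξ_coe k i).symm
    · exact (η_coe k i).symm
  have e4 : aeval (Sum.elim (xv (rL k)) (yv (rL k))) P =
      algebraMap (MvPolynomial (Fin 2) k) (L k) (aeval (Sum.elim (xv (ρ k)) (yv (ρ k))) P) := by
    have := comp_aeval_apply (f := Sum.elim (xv (ρ k)) (yv (ρ k)))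
      (IsScalarTower.toAlgHom k (MvPolynomial (Fin 2) k) (L k)) P
    rw [IsScalarTower.coe_toAlgHom'] at this
    rw [this]
    congr 2
    funext s
    rcases s with i | i
    · simp only [Sum.elim_inl]
      rw [map_xv]
      rfl
    · simp only [Sum.elim_inr]
      rw [map_yv]
      rfl
  rw [e4] at e1
  constructor
  · intro h
    rw [h] at e1
    apply IsFractionRing.injective (MvPolynomial (Fin 2) k) (L k)
    rw [e1]
    simp
  · intro h
    rw [h, map_zero] at e1
    have := (mul_eq_zero.1 e1.symm).resolve_left (pow_ne_zero n h0)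
    exact Subtype.ext this

theorem eval_ρ (P : MvPolynomial (Fin 3 ⊕ Fin 3) k) (t : Fin 2 → k) :
    eval t (aeval (Sum.elim (xv (ρ k)) (yv (ρ k))) P : MvPolynomial (Fin 2) k) =
      eval (Sum.elim (xv ![1, t 0, t 1]) (yv ![1, t 0, t 1])) P := by
  have h := map_aeval (Sum.elim (xv (ρ k)) (yv (ρ k))) (eval t) P
  rw [h, coe_eval₂Hom, eval₂_eq', eval_eq']
  refine Finset.sum_congr rfl (fun d _ => ?_)
  congr 1
  · simp
  · refine Finset.prod_congr rfl (fun s _ => ?_)
    congr 1
    have e : (fun j => eval t (ρ k j)) = ![1, t 0, t 1] := by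
      funext j
      fin_cases j <;> simp [ρ]
    rcases s with i | i
    · simp only [Sum.elim_inl]
      rw [map_xv, e]
    · simp only [Sum.elim_inr]
      rw [map_yv, e]

theorem eval_param {k : Type*} [Field k] (P : MvPolynomial (Fin 3 ⊕ Fin 3) k)
    (f : Fin 3 → Polynomial k) (e : k) :
    (aeval (Sum.elim (xv f) (yv f)) P : Polynomial k).eval e =
      eval (Sum.elim (xv (fun j => (f j).eval e)) (yv (fun j => (f j).eval e))) P := by
  rw [eval_curve]
  congr 2
  funext s
  rcases s with i | i
  · simp only [Sum.elim_inl]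
    exact map_xv (Polynomial.evalRingHom e) f i
  · simp only [Sum.elim_inr]
    exact map_yv (Polynomial.evalRingHom e) f i

theorem isFunctionField [Infinite k] [PerfectRing k 2] :
    IsFunctionField (surf k) (K k) (ξ k) (η k) where
  ξ_ne_zero h := one_ne_zero (congrFun h 0)
  η_ne_zero h := one_ne_zero (congrFun h 0)
  generic P m n hP := by
    rw [aeval_coe k P hP]
    constructor
    · intro h
      apply vanish_surf hP
      -- first the points with nonzero first coordinate
      have h1 : ∀ r : Fin 3 → k, r 0 ≠ 0 → eval (Sum.elim (xv r) (yv r)) P = 0 := by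
        intro r hr
        have e1 := eval_ρ k P ![r 1 / r 0, r 2 / r 0]
        rw [h, map_zero] at e1
        have e2 : r = r 0 • ![1, r 1 / r 0, r 2 / r 0] := by
          funext i
          fin_cases i
          · simp
          · simp only [Fin.mk_one, Fin.isValue, Pi.smul_apply, Matrix.cons_val_one,
              Matrix.cons_val_zero, smul_eq_mul]
            field_simp
          · simp only [Fin.reduceFinMk, Fin.isValue, Pi.smul_apply, Matrix.cons_val, smul_eq_mul]
            field_simp
        rw [e2, xv_smul, yv_smul, eval_smul hP]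
        simp only [Fin.isValue, Matrix.cons_val_zero, Matrix.cons_val_one, smul_eq_mul] at e1 ⊢
        rw [← e1]
        simp
      intro r
      by_cases hr : r 0 = 0
      · let f : Fin 3 → Polynomial k := fun i => Polynomial.C (r i) + if i = 0 then Polynomial.X else 0
        have hH : (aeval (Sum.elim (xv f) (yv f)) P : Polynomial k) = 0 := by
          apply poly_zero
          intro e he
          rw [eval_param]
          apply h1
          simp [f, hr, he]
        have h2 := congrArg (Polynomial.eval 0) hH
        rw [eval_param, Polynomial.eval_zero] at h2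
        rw [← h2]
        have h3 : (fun j => (f j).eval 0) = r := by
          funext j
          fin_cases j <;> simp [f]
        rw [h3]
      · exact h1 r hr
    · intro h
      have h1 : yv (ρ k) 0 * aeval (Sum.elim (xv (ρ k)) (yv (ρ k))) P = 0 := by
        apply MvPolynomial.funext
        intro t
        rw [map_mul, eval_ρ, map_zero]
        by_cases h2 : eval t (yv (ρ k) 0) = 0
        · rw [h2, zero_mul]
        · have h3 : eval t (yv (ρ k) 0) = yv ![1, t 0, t 1] 0 := by
            rw [map_yv]
            congr 1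
            funext j
            fin_cases j <;> simp [ρ]
          rw [h3] at h2
          have h4 := h _ (mem_surf_yv (r := ![1, t 0, t 1]) (fun h0 => one_ne_zero (congrFun h0 0))
            (fun h0 => h2 (congrFun h0 0)))
          simp only at h4
          rw [h4, mul_zero]
      exact (mul_eq_zero.1 h1).resolve_left (yv_ρ_zero_ne k)
  generates := by
    set T := IntermediateField.adjoin k {f : K k | ∃ i j, f = ξ k i / ξ k j ∨ f = η k i / η k j}
      with hT
    have h1 : IntermediateField.lift T = K k := by
      apply le_antisymm (IntermediateField.lift_le T)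
      unfold K
      rw [IntermediateField.adjoin_le_iff]
      have m1 : ξ k 1 ∈ T := IntermediateField.subset_adjoin _ _ ⟨1, 0, Or.inl (by simp [ξ])⟩
      have m2 : ξ k 2 ∈ T := IntermediateField.subset_adjoin _ _ ⟨2, 0, Or.inl (by simp [ξ])⟩
      have m3 : η k 1 ∈ T := IntermediateField.subset_adjoin _ _ ⟨1, 0, Or.inr (by simp [η])⟩
      intro x hx
      simp only [Set.mem_insert_iff, Set.mem_singleton_iff] at hx
      rcases hx with rfl | rfl | rfl
      · exact (IntermediateField.mem_lift (⟨_, a2_mem k⟩ : K k)).2 m1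
      · exact (IntermediateField.mem_lift (⟨_, b2_mem k⟩ : K k)).2 m2
      · exact (IntermediateField.mem_lift (⟨_, c₁_mem k⟩ : K k)).2 m3
    apply IntermediateField.lift_injective
    rw [h1, IntermediateField.lift_top]

end Pool.Agent.TH174.Gon
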