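import Pool.Agent.TH174.Gon.Basic

set_option autoImplicit false
set_option linter.unusedSimpArgs false

namespace Pool.Agent.TH174.Gon

open MvPolynomial

variable {k : Type*} [Field k]

theorem eval_curve (P : MvPolynomial (Fin 3 ⊕ Fin 3) k) (f : Fin 3 ⊕ Fin 3 → Polynomial k) (e : k) :
    (aeval f P : Polynomial k).eval e = eval (fun s => (f s).eval e) P := by
  have h := map_aeval f (Polynomial.evalRingHom e) P
  rw [Polynomial.coe_evalRingHom] at h
  rw [h, coe_eval₂Hom, eval₂_eq', eval_eq']
  refine Finset.sum_congr rfl (fun d _ => ?_)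
  simp

theorem poly_zero [Infinite k] (H : Polynomial k) (h : ∀ e : k, e ≠ 0 → H.eval e = 0) : H = 0 := by
  have h1 : Polynomial.X * H = 0 := by
    apply Polynomial.funext
    intro e
    by_cases he : e = 0
    · simp [he]
    · simp [h e he]
  exact (mul_eq_zero.1 h1).resolve_left Polynomial.X_ne_zero

theorem exists_cr [CharP k 2] {v y : Fin 3 → k} (hv : v ≠ 0) (h : ∑ i, v i * y i = 0) :
    ∃ s : Fin 3 → k, cr s v = y := by
  have two : (2 : k) = 0 := CharTwo.two_eq_zero
  rw [Fin.sum_univ_three] at h
  obtain ⟨i, hi⟩ := Function.ne_iff.1 hv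
  rw [Pi.zero_apply] at hi
  fin_cases i
  · simp only [Fin.zero_eta, Fin.isValue] at hi
    refine ⟨![0, y 2 / v 0, y 1 / v 0], ?_⟩
    funext j
    fin_cases j
    · simp only [cr, Fin.zero_eta, Fin.isValue, Matrix.cons_val_zero, Matrix.cons_val_one, Matrix.cons_val]
      field_simp
      linear_combination h - v 0 * y 0 * two
    · simp only [cr, Fin.mk_one, Fin.isValue, Matrix.cons_val_zero, Matrix.cons_val_one, Matrix.cons_val]
      field_simp
      ring
    · simp only [cr, Fin.reduceFinMk, Fin.isValue, Matrix.cons_val_zero, Matrix.cons_val_one, Matrix.cons_val]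
      field_simp
      ring
  · simp only [Fin.mk_one, Fin.isValue] at hi
    refine ⟨![y 2 / v 1, 0, y 0 / v 1], ?_⟩
    funext j
    fin_cases j
    · simp only [cr, Fin.zero_eta, Fin.isValue, Matrix.cons_val_zero, Matrix.cons_val_one, Matrix.cons_val]
      field_simp
      ring
    · simp only [cr, Fin.mk_one, Fin.isValue, Matrix.cons_val_zero, Matrix.cons_val_one, Matrix.cons_val]
      field_simp
      linear_combination h - v 1 * y 1 * two
    · simp only [cr, Fin.reduceFinMk, Fin.isValue, Matrix.cons_val_zero, Matrix.cons_val_one, Matrix.cons_val]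
      field_simp
      ring
  · simp only [Fin.reduceFinMk, Fin.isValue] at hi
    refine ⟨![y 1 / v 2, y 0 / v 2, 0], ?_⟩
    funext j
    fin_cases j
    · simp only [cr, Fin.zero_eta, Fin.isValue, Matrix.cons_val_zero, Matrix.cons_val_one, Matrix.cons_val]
      field_simp
      ring
    · simp only [cr, Fin.mk_one, Fin.isValue, Matrix.cons_val_zero, Matrix.cons_val_one, Matrix.cons_val]
      field_simp
      ring
    · simp only [cr, Fin.reduceFinMk, Fin.isValue, Matrix.cons_val_zero, Matrix.cons_val_one, Matrix.cons_val]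
      field_simp
      linear_combination h - v 2 * y 2 * two

/-- A bihomogeneous polynomial which vanishes at the parametrised points vanishes on the surface. -/
theorem vanish_surf [Infinite k] [CharP k 2] [PerfectRing k 2]
    {P : MvPolynomial (Fin 3 ⊕ Fin 3) k} {m n : ℕ} (hP : IsBihomogeneous P m n)
    (h : ∀ r : Fin 3 → k, eval (Sum.elim (xv r) (yv r)) P = 0) :
    ∀ z ∈ surf k, eval (Sum.elim z.1 z.2) P = 0 := by
  rintro ⟨x, y⟩ hz
  obtain ⟨r, hr0, rfl, h1, h2⟩ := surf_param hz
  show eval (Sum.elim (xv r) y) P = 0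
  by_cases hy : yv r = 0
  · have hv : (fun i => r i ^ 4) ≠ 0 := by
      obtain ⟨i, hi⟩ := Function.ne_iff.1 hr0
      intro h0
      exact pow_ne_zero 4 hi (congrFun h0 i)
    obtain ⟨s, hs⟩ := exists_cr hv h2
    -- the curve `r + e s`
    let fx : Fin 3 → Polynomial k := fun i => (Polynomial.C (r i) + Polynomial.X * Polynomial.C (s i)) ^ 2
    let w1 := cr s (fun i => r i ^ 4)
    let w2 := cr r (fun i => s i ^ 4)
    let w3 := cr s (fun i => s i ^ 4)
    let fy : Fin 3 → Polynomial k := fun i => Polynomial.C (w1 i) + Polynomial.X ^ 3 * Polynomial.C (w2 i)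
      + Polynomial.X ^ 4 * Polynomial.C (w3 i)
    have hH : (aeval (Sum.elim fx fy) P : Polynomial k) = 0 := by
      apply poly_zero
      intro e he
      rw [eval_curve]
      have e1 : (fun t => (Sum.elim fx fy t).eval e) = Sum.elim (xv (r + e • s))
          (fun i => w1 i + e ^ 3 * w2 i + e ^ 4 * w3 i) := by
        funext t
        rcases t with i | i
        · simp [fx, xv]
          ring
        · simp [fy]
          ring
      rw [e1]
      have e2 : yv (r + e • s) = e • (fun i => w1 i + e ^ 3 * w2 i + e ^ 4 * w3 i) := by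
        have hyy : ∀ i, yv r i = 0 := fun i => congrFun hy i
        have e3 : (fun i => (r + e • s) i ^ 4) = (fun i => r i ^ 4 + e ^ 4 * s i ^ 4) := by
          funext i
          have two : (2 : k) = 0 := CharTwo.two_eq_zero
          simp only [Pi.add_apply, Pi.smul_apply, smul_eq_mul]
          linear_combination (2 * r i ^ 3 * (e * s i) + 3 * r i ^ 2 * (e * s i) ^ 2 +
            2 * r i * (e * s i) ^ 3) * two
        have h0 := hyy 0
        have h1 := hyy 1
        have h2 := hyy 2
        unfold yv
        rw [e3]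
        funext i
        simp only [yv, cr, Fin.isValue, Matrix.cons_val_zero, Matrix.cons_val_one,
          Matrix.cons_val] at h0 h1 h2
        fin_cases i
        · simp only [cr, w1, w2, w3, Fin.zero_eta, Fin.isValue, Pi.add_apply, Pi.smul_apply,
            smul_eq_mul, Matrix.cons_val_zero, Matrix.cons_val_one, Matrix.cons_val]
          linear_combination h0
        · simp only [cr, w1, w2, w3, Fin.mk_one, Fin.isValue, Pi.add_apply, Pi.smul_apply,
            smul_eq_mul, Matrix.cons_val_zero, Matrix.cons_val_one, Matrix.cons_val]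
          linear_combination h1
        · simp only [cr, w1, w2, w3, Fin.reduceFinMk, Fin.isValue, Pi.add_apply, Pi.smul_apply,
            smul_eq_mul, Matrix.cons_val_zero, Matrix.cons_val_one, Matrix.cons_val]
          linear_combination h2
      have e4 := h (r + e • s)
      rw [e2] at e4
      have e5 := eval_smul hP 1 e (xv (r + e • s)) (fun i => w1 i + e ^ 3 * w2 i + e ^ 4 * w3 i)
      rw [one_smul, e4, one_pow, one_mul] at e5
      exact (mul_eq_zero.1 e5.symm).resolve_left (pow_ne_zero n he)
    have h6 := congrArg (Polynomial.eval 0) hH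
    rw [eval_curve, Polynomial.eval_zero] at h6
    rw [← h6]
    congr 1
    congr 1
    funext t
    rcases t with i | i
    · simp [fx, xv]
    · simp only [Sum.elim_inr, fy, w1]
      rw [hs]
      simp
  · obtain ⟨c, hc⟩ := cr_par h1 h2 hy
    have e1 := eval_smul hP 1 c (xv r) (yv r)
    rw [one_smul, h r, mul_zero] at e1
    rw [← e1]
    congr 1
    rw [hc]
    rfl

theorem mem_surf_yv [CharP k 2] {r : Fin 3 → k} (h0 : r ≠ 0) (h : yv r ≠ 0) :
    (xv r, yv r) ∈ surf k := by
  have two : (2 : k) = 0 := CharTwo.two_eq_zero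
  rw [mem_surf]
  refine ⟨?_, h, ?_, ?_⟩
  · obtain ⟨i, hi⟩ := Function.ne_iff.1 h0
    intro hx
    exact pow_ne_zero 2 hi (congrFun hx i)
  · have h1 : ∑ i, r i * yv r i = 0 := by
      rw [Fin.sum_univ_three]
      simp only [yv, cr, Fin.isValue, Matrix.cons_val_zero, Matrix.cons_val_one, Matrix.cons_val]
      linear_combination (r 0 * r 1 * r 2 ^ 4 + r 0 * r 2 * r 1 ^ 4 + r 1 * r 2 * r 0 ^ 4) * two
    have h2 : ∑ i, xv r i * yv r i ^ 2 = (∑ i, r i * yv r i) ^ 2 := by
      rw [sum_pow_char 2]
      refine Finset.sum_congr rfl (fun i _ => ?_)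
      unfold xv
      ring
    rw [h2, h1]
    simp
  · rw [Fin.sum_univ_three]
    simp only [xv, yv, cr, Fin.isValue, Matrix.cons_val_zero, Matrix.cons_val_one, Matrix.cons_val]
    linear_combination (r 0 ^ 4 * r 1 * r 2 ^ 4 + r 0 ^ 4 * r 2 * r 1 ^ 4 + r 0 * r 1 ^ 4 * r 2 ^ 4) * two

end Pool.Agent.TH174.Gon
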