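import Pool.Agent.TH174.Gon.Gen

set_option autoImplicit false
set_option linter.unusedSimpArgs false
set_option linter.unusedSectionVars false

namespace Pool.Agent.TH174.Gon

open MvPolynomial

section moore

variable (k : Type*) [Field k]

/-- The Moore determinant `det (c_i ^ (4 ^ j))`. -/
noncomputable def moore : MvPolynomial (Fin 3) k :=
  Matrix.det (Matrix.of fun j i : Fin 3 => (X i : MvPolynomial (Fin 3) k) ^ (4 ^ (j : ℕ)))

variable {k}

theorem eval_moore (c : Fin 3 → k) :
    eval c (moore k) = Matrix.det (Matrix.of fun j i : Fin 3 => c i ^ (4 ^ (j : ℕ))) := by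
  unfold moore
  rw [RingHom.map_det]
  congr 1
  ext j i
  simp

theorem moore_ne_zero [Infinite k] : moore k ≠ 0 := by
  intro h
  have hQ : ((Polynomial.X ^ 4 - Polynomial.X) * (Polynomial.X ^ 16 - Polynomial.X) *
      (Polynomial.X ^ 16 - Polynomial.X ^ 4) : Polynomial k) ≠ 0 := by
    refine mul_ne_zero (mul_ne_zero ?_ ?_) ?_
    · intro h
      have := congrArg (fun p => Polynomial.coeff p 4) h
      simp [Polynomial.coeff_X, Polynomial.coeff_X_pow] at this
    · intro h
      have := congrArg (fun p => Polynomial.coeff p 16) h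
      simp [Polynomial.coeff_X, Polynomial.coeff_X_pow] at this
    · intro h
      have := congrArg (fun p => Polynomial.coeff p 16) h
      simp [Polynomial.coeff_X, Polynomial.coeff_X_pow] at this
  apply hQ
  apply Polynomial.funext
  intro s
  have h2 := eval_moore (k := k) ![1, s, s ^ 2]
  rw [h, map_zero] at h2
  have h3 : (Matrix.of fun j i : Fin 3 => (![1, s, s ^ 2] : Fin 3 → k) i ^ (4 ^ (j : ℕ))) =
      Matrix.vandermonde (fun j : Fin 3 => s ^ (4 ^ (j : ℕ))) := by
    ext j i
    rw [Matrix.vandermonde_apply, Matrix.of_apply]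
    fin_cases i
    · simp
    · simp
    · simp [← pow_mul, mul_comm]
  rw [h3, Matrix.det_vandermonde] at h2
  rw [Polynomial.eval_zero]
  simp [Fin.prod_univ_three, Finset.prod_eq_zero_iff] at h2
  simp only [Polynomial.eval_mul, Polynomial.eval_pow, Polynomial.eval_X, Polynomial.eval_sub]
  rcases h2 with ((h2 | h2) | ⟨a, ha, h2⟩) | ⟨a, ha, h2⟩
  · rw [h2]; ring
  · rw [h2]; ring
  · have : a = 2 := by omega
    subst this
    have h4 : s ^ 16 - s ^ 4 = 0 := by simpa using h2
    rw [h4, mul_zero]
  · omega

/-- A nonzero vector of a general line is not proportional to its fourth power. -/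
theorem yv_ne_of_moore [CharP k 2] {c g r : Fin 3 → k} (hc : eval c (moore k) ≠ 0)
    (hg : ∀ i, g i ^ 2 = c i) (hr : r ≠ 0) (hgr : ∑ i, g i * r i = 0) : yv r ≠ 0 := by
  intro hy
  apply hc
  rw [eval_moore]
  obtain ⟨i0, hi0⟩ := Function.ne_iff.1 hr
  rw [Pi.zero_apply] at hi0
  have two : (2 : k) = 0 := CharTwo.two_eq_zero
  have h0 : yv r 0 = 0 := congrFun hy 0
  have h1 : yv r 1 = 0 := congrFun hy 1
  have h2 : yv r 2 = 0 := congrFun hy 2
  simp only [yv, cr, Fin.isValue, Matrix.cons_val_zero, Matrix.cons_val_one, Matrix.cons_val] at h0 h1 h2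
  have key : ∀ i j, r i * r j ^ 4 = r j * r i ^ 4 := by
    intro i j
    fin_cases i <;> fin_cases j <;>
      simp only [Fin.zero_eta, Fin.mk_one, Fin.reduceFinMk, Fin.isValue] <;>
      first
        | ring1
        | linear_combination h0 - (r 2 * r 1 ^ 4) * two
        | linear_combination h0 - (r 1 * r 2 ^ 4) * two
        | linear_combination h1 - (r 0 * r 2 ^ 4) * two
        | linear_combination h1 - (r 2 * r 0 ^ 4) * two
        | linear_combination h2 - (r 1 * r 0 ^ 4) * two
        | linear_combination h2 - (r 0 * r 1 ^ 4) * two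
  let σ : Fin 3 → k := fun i => (r i / r i0) ^ 2
  have hσ4 : ∀ i, σ i ^ 4 = σ i := by
    intro i
    have h3 : (r i / r i0) ^ 4 = r i / r i0 := by
      rw [div_pow, div_eq_div_iff (pow_ne_zero 4 hi0) hi0]
      linear_combination -(key i i0)
    show ((r i / r i0) ^ 2) ^ 4 = (r i / r i0) ^ 2
    rw [← pow_mul, mul_comm, pow_mul, h3]
  have hσ1 : ∑ i, c i * σ i = 0 := by
    have h3 : (∑ i, g i * r i) ^ 2 = 0 := by rw [hgr]; simp
    rw [sum_pow_char 2] at h3
    have h4 : ∑ i, c i * σ i = (∑ i, (g i * r i) ^ 2) / r i0 ^ 2 := by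
      rw [Finset.sum_div]
      refine Finset.sum_congr rfl (fun i _ => ?_)
      rw [← hg i]
      show g i ^ 2 * (r i / r i0) ^ 2 = _
      field_simp
    rw [h4, h3, zero_div]
  have hσ2 : ∀ c : Fin 3 → k, ∑ i, c i * σ i = 0 → ∑ i, c i ^ 4 * σ i = 0 := by
    intro c h3
    have h4 : (∑ i, c i * σ i) ^ 4 = ∑ i, (c i * σ i) ^ 4 := by
      have := sum_pow_char_pow (R := k) 2 2 Finset.univ (fun i => c i * σ i)
      simpa using this
    rw [h3, zero_pow (by norm_num)] at h4
    rw [h4]
    refine Finset.sum_congr rfl (fun i _ => ?_)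
    rw [mul_pow, hσ4]
  have hσ0 : σ ≠ 0 := by
    intro h
    have := congrFun h i0
    simp [σ, hi0] at this
  have hM : (Matrix.of fun j i : Fin 3 => c i ^ (4 ^ (j : ℕ))).mulVec σ = 0 := by
    funext j
    show ∑ i, c i ^ (4 ^ (j : ℕ)) * σ i = 0
    fin_cases j
    · simpa using hσ1
    · simpa using hσ2 c hσ1
    · have h5 := hσ2 _ (hσ2 c hσ1)
      simp only [← pow_mul] at h5
      simpa using h5
  exact Matrix.exists_mulVec_eq_zero_iff.1 ⟨σ, hσ0, hM⟩

end moore

section ratfield

variable (k : Type*) [Field k] [CharP k 2]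

/-- The field `k(t)`. -/
abbrev M := FractionRing (Polynomial k)

/-- The variable. -/
noncomputable def tM : M k := algebraMap (Polynomial k) (M k) Polynomial.X

theorem adjoin_tM : IntermediateField.adjoin k {tM k} = ⊤ := by
  rw [eq_top_iff]
  intro z _
  obtain ⟨p, q, _, rfl⟩ := IsFractionRing.div_surjective (Polynomial k) z
  have key : ∀ p : Polynomial k, algebraMap (Polynomial k) (M k) p ∈ IntermediateField.adjoin k {tM k} := by
    intro p
    induction p using Polynomial.induction_on' with
    | add p q hp hq => rw [map_add]; exact add_mem hp hq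
    | monomial n a =>
      rw [← Polynomial.C_mul_X_pow_eq_monomial, map_mul, map_pow]
      have h1 : algebraMap (Polynomial k) (M k) (Polynomial.C a) = algebraMap k (M k) a :=
        (IsScalarTower.algebraMap_apply k (Polynomial k) (M k) a).symm
      have h2 : tM k ∈ IntermediateField.adjoin k {tM k} := IntermediateField.mem_adjoin_simple_self k _
      rw [h1]
      exact mul_mem (IntermediateField.algebraMap_mem _ a) (pow_mem h2 n)
  exact div_mem (key p) (key q)

theorem tM_transcendental : Transcendental k (tM k) := by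
  unfold tM
  exact (transcendental_algebraMap_iff (IsFractionRing.injective (Polynomial k) (M k))).2
    (Polynomial.transcendental_X k)

theorem M_decomp [PerfectRing k 2] (z : M k) : ∃ p q : M k, z = p ^ 2 + q ^ 2 * tM k := by
  have two : (2 : M k) = 0 := CharTwo.two_eq_zero
  have hz : z ∈ IntermediateField.adjoin k {tM k} := by rw [adjoin_tM]; trivial
  induction hz using IntermediateField.adjoin_induction with
  | mem x hx =>
    rw [Set.mem_singleton_iff] at hx
    subst hx
    exact ⟨0, 1, by ring⟩
  | algebraMap x =>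
    obtain ⟨b, hb⟩ := exists_sqrt x
    exact ⟨algebraMap k (M k) b, 0, by rw [← hb, map_pow]; ring⟩
  | add x y _ _ hx hy =>
    obtain ⟨p, q, rfl⟩ := hx
    obtain ⟨p', q', rfl⟩ := hy
    exact ⟨p + p', q + q', by linear_combination -(p * p' + q * q' * tM k) * two⟩
  | inv x _ hx =>
    obtain ⟨p, q, h⟩ := hx
    by_cases h0 : x = 0
    · exact ⟨0, 0, by rw [h0]; simp⟩
    · refine ⟨p / x, q / x, ?_⟩
      field_simp
      exact h
  | mul x y _ _ hx hy =>
    obtain ⟨p, q, rfl⟩ := hx
    obtain ⟨p', q', rfl⟩ := hy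
    exact ⟨p * p' + q * q' * tM k, p * q' + q * p',
      by linear_combination -(p * p' * q * q' * tM k + p * q' * q * p' * tM k) * two⟩

theorem sq_mem [PerfectRing k 2] (z : M k) : z ^ 2 ∈ IntermediateField.adjoin k {tM k ^ 2} := by
  have two : (2 : M k) = 0 := CharTwo.two_eq_zero
  have hz : z ∈ IntermediateField.adjoin k {tM k} := by rw [adjoin_tM]; trivial
  induction hz using IntermediateField.adjoin_induction with
  | mem x hx =>
    rw [Set.mem_singleton_iff] at hx
    subst hx
    exact IntermediateField.subset_adjoin _ _ rfl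
  | algebraMap x =>
    rw [← map_pow]
    exact (IntermediateField.adjoin k {tM k ^ 2}).algebraMap_mem _
  | add x y _ _ hx hy =>
    have : (x + y) ^ 2 = x ^ 2 + y ^ 2 := by linear_combination (x * y) * two
    rw [this]
    exact add_mem hx hy
  | inv x _ hx => rw [inv_pow]; exact inv_mem hx
  | mul x y _ _ hx hy => rw [mul_pow]; exact mul_mem hx hy

/-- A field between `k(t²)` and `k(t)` is generated by one element. -/
theorem simple_of_mem [PerfectRing k 2] (N : IntermediateField k (M k)) (h : tM k ^ 2 ∈ N) :
    ∃ f : N, Transcendental k f ∧ IntermediateField.adjoin k {f} = ⊤ := by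
  have key : ∀ f : N, Transcendental k (f : M k) → IntermediateField.adjoin k {(f : M k)} = N →
      Transcendental k f ∧ IntermediateField.adjoin k {f} = ⊤ := by
    intro f h1 h2
    constructor
    · exact (transcendental_algebraMap_iff (A := M k) (S := N) (R := k) N.val.injective).1 h1
    · apply IntermediateField.lift_injective
      rw [IntermediateField.lift_top, IntermediateField.lift_adjoin_simple, h2]
  by_cases ht : tM k ∈ N
  · refine ⟨⟨tM k, ht⟩, key _ (tM_transcendental k) ?_⟩
    apply le_antisymm
    · rw [IntermediateField.adjoin_le_iff]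
      rintro x rfl
      exact ht
    · show N ≤ IntermediateField.adjoin k {tM k}
      rw [adjoin_tM]
      exact le_top
  · refine ⟨⟨tM k ^ 2, h⟩, key _ ((tM_transcendental k).pow (by norm_num)) ?_⟩
    have hle : IntermediateField.adjoin k {tM k ^ 2} ≤ N := by
      rw [IntermediateField.adjoin_le_iff]
      rintro x rfl
      exact h
    apply le_antisymm hle
    intro z hz
    obtain ⟨p, q, rfl⟩ := M_decomp k z
    by_cases hq : q = 0
    · rw [hq]
      have := sq_mem k p
      simpa using this
    · exfalso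
      apply ht
      have h1 : tM k = ((p ^ 2 + q ^ 2 * tM k) - p ^ 2) / q ^ 2 := by
        field_simp
        ring
      rw [h1]
      exact div_mem (sub_mem hz (hle (sq_mem k p))) (hle (sq_mem k q))

theorem hasGonality_one [PerfectRing k 2] (N : IntermediateField k (M k)) (h : tM k ^ 2 ∈ N) :
    HasGonality k N 1 := by
  obtain ⟨f, h1, h2⟩ := simple_of_mem k N h
  constructor
  · refine ⟨one_pos, f, h1, ?_⟩
    exact IntermediateField.finrank_eq_one_iff_eq_top.2 h2
  · rintro n ⟨hn, _⟩
    exact hn

end ratfield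

end Pool.Agent.TH174.Gon
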