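import Pool.Agent.TH174.Gon.Core

set_option autoImplicit false

/-! Polynomial solutions of `∑ p_i q_i ^ 2 = ∑ p_i ^ 2 q_i = 0` in characteristic two. -/

namespace Pool.Agent.TH174.Gon

open MvPolynomial

variable {k : Type*} [Field k] {σ : Type*}

theorem totalDegree_pderiv (i : σ) (f : MvPolynomial σ k) (h : pderiv i f ≠ 0) :
    (pderiv i f).totalDegree + 1 ≤ f.totalDegree := by
  classical
  obtain ⟨m, hm, hmd⟩ := Finset.exists_mem_eq_sup (pderiv i f).support (support_nonempty.2 h)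
    (fun s => s.sum fun _ e => e)
  have h1 : (pderiv i f).totalDegree = m.sum fun _ e => e := hmd
  rw [h1]
  rw [mem_support_iff, coeff_pderiv] at hm
  have h2 : m + Finsupp.single i 1 ∈ f.support := by
    rw [mem_support_iff]
    exact left_ne_zero_of_mul hm
  have h3 := le_totalDegree h2
  have h4 : (m + Finsupp.single i 1).sum (fun _ e => e) = (m.sum fun _ e => e) + 1 := by
    rw [Finsupp.sum_add_index']
    · rw [Finsupp.sum_single_index rfl]
    · intro _; rfl
    · intro _ _ _; rfl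
  omega

/-- In a perfect field of characteristic two, a polynomial with zero partial derivatives is a
square. -/
theorem exists_sq [CharP k 2] [PerfectRing k 2] (f : MvPolynomial σ k)
    (h : ∀ i, pderiv i f = 0) : ∃ g : MvPolynomial σ k, f = g ^ 2 := by
  classical
  have hev : ∀ m ∈ f.support, ∀ i, 2 ∣ m i := by
    intro m hm i
    by_contra hodd
    have h0 : m i ≠ 0 := by
      intro h0
      exact hodd (h0 ▸ dvd_zero 2)
    have h1 : coeff (m - Finsupp.single i 1) (pderiv i f) = 0 := by rw [h i, coeff_zero]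
    rw [coeff_pderiv] at h1
    have h2 : m - Finsupp.single i 1 + Finsupp.single i 1 = m := by
      apply tsub_add_cancel_of_le
      rw [Finsupp.single_le_iff]
      omega
    rw [h2] at h1
    have h3 : (((m - Finsupp.single i 1 : σ →₀ ℕ) i : ℕ) : k) + 1 ≠ 0 := by
      have : ((m - Finsupp.single i 1 : σ →₀ ℕ) i) + 1 = m i := by
        rw [Finsupp.tsub_apply, Finsupp.single_eq_same]
        omega
      have h4 : (((m - Finsupp.single i 1 : σ →₀ ℕ) i : ℕ) : k) + 1 = ((m i : ℕ) : k) := by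
        rw [← this]
        push_cast
        rfl
      rw [h4]
      intro h5
      exact hodd ((CharP.cast_eq_zero_iff k 2 (m i)).1 h5)
    rcases mul_eq_zero.1 h1 with h4 | h4
    · exact (mem_support_iff.1 hm) h4
    · exact h3 h4
  have hsq : ∀ c : k, ∃ b : k, b ^ 2 = c := fun c => (PerfectRing.bijective_frobenius (R := k) (p := 2)).2 c
  choose r hr using hsq
  refine ⟨∑ m ∈ f.support, monomial (m.mapRange (fun e => e / 2) (by norm_num)) (r (coeff m f)), ?_⟩
  have : CharP (MvPolynomial σ k) 2 := inferInstance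
  rw [sum_pow_char (p := 2)]
  conv_lhs => rw [f.as_sum]
  refine Finset.sum_congr rfl (fun m hm => ?_)
  rw [monomial_pow, hr]
  have h2 : 2 • m.mapRange (fun e => e / 2) (by norm_num) = m := by
    ext i
    rw [Finsupp.smul_apply, Finsupp.mapRange_apply, smul_eq_mul]
    exact Nat.mul_div_cancel' (hev m hm i)
  rw [h2]


/-- The degree of a vector of polynomials. -/
noncomputable def vdeg (p : Fin 3 → MvPolynomial σ k) : ℕ :=
  Finset.univ.sup fun j => (p j).totalDegree

theorem le_vdeg (p : Fin 3 → MvPolynomial σ k) (j : Fin 3) : (p j).totalDegree ≤ vdeg p :=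
  Finset.le_sup (f := fun j => (p j).totalDegree) (Finset.mem_univ j)

theorem exists_vdeg (p : Fin 3 → MvPolynomial σ k) : ∃ j, (p j).totalDegree = vdeg p := by
  obtain ⟨j, _, hj⟩ := Finset.exists_mem_eq_sup Finset.univ Finset.univ_nonempty
    (fun j => (p j).totalDegree)
  exact ⟨j, hj.symm⟩

/-- The entries of `p × D p`. -/
noncomputable def wr (i : σ) (p : Fin 3 → MvPolynomial σ k) (a b : Fin 3) : MvPolynomial σ k :=
  p a * pderiv i (p b) - p b * pderiv i (p a)

theorem wr_deg (i : σ) (p : Fin 3 → MvPolynomial σ k) (a b : Fin 3) (h : wr i p a b ≠ 0) :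
    (wr i p a b).totalDegree + 1 ≤ 2 * vdeg p := by
  have key : ∀ a b, p a * pderiv i (p b) ≠ 0 →
      (p a * pderiv i (p b)).totalDegree + 1 ≤ 2 * vdeg p := by
    intro a b h
    have h1 := totalDegree_pderiv i (p b) (right_ne_zero_of_mul h)
    have h2 := totalDegree_mul (p a) (pderiv i (p b))
    have h3 := le_vdeg p a
    have h4 := le_vdeg p b
    omega
  by_cases h1 : p a * pderiv i (p b) = 0
  · have h2 : p b * pderiv i (p a) ≠ 0 := by
      intro h2
      apply h
      unfold wr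
      rw [h1, h2, sub_zero]
    unfold wr
    rw [h1, zero_sub, totalDegree_neg]
    exact key _ _ h2
  · by_cases h2 : p b * pderiv i (p a) = 0
    · unfold wr
      rw [h2, sub_zero]
      exact key _ _ h1
    · have h3 := key _ _ h1
      have h4 := key _ _ h2
      have h5 := totalDegree_sub (p a * pderiv i (p b)) (p b * pderiv i (p a))
      unfold wr
      omega

/-- If `∑ p_i q_i ^ 2 = 0`, then `p × D p` is proportional to `q ^ 2`. -/
theorem wr_prop [CharP k 2] (i : σ) (p q : Fin 3 → MvPolynomial σ k)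
    (h : p 0 * q 0 ^ 2 + p 1 * q 1 ^ 2 + p 2 * q 2 ^ 2 = 0) (j : Fin 3) :
    wr i p 1 2 * q j ^ 2 = ![wr i p 1 2, wr i p 2 0, wr i p 0 1] j * q 0 ^ 2 ∧
    wr i p 2 0 * q j ^ 2 = ![wr i p 1 2, wr i p 2 0, wr i p 0 1] j * q 1 ^ 2 ∧
    wr i p 0 1 * q j ^ 2 = ![wr i p 1 2, wr i p 2 0, wr i p 0 1] j * q 2 ^ 2 := by
  have hc : (2 : MvPolynomial σ k) = 0 := CharTwo.two_eq_zero
  have hd : pderiv i (p 0) * q 0 ^ 2 + pderiv i (p 1) * q 1 ^ 2 + pderiv i (p 2) * q 2 ^ 2 = 0 := by
    have h1 := congrArg (pderiv i) h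
    simp only [map_add, Derivation.leibniz, map_zero, smul_eq_mul, Derivation.leibniz_pow] at h1
    simp only [nsmul_eq_mul, Nat.cast_ofNat, hc, zero_mul, mul_zero, zero_add] at h1
    linear_combination h1
  fin_cases j
  · refine ⟨rfl, ?_, ?_⟩
    · change wr i p 2 0 * q 0 ^ 2 = wr i p 1 2 * q 1 ^ 2
      simp only [wr]
      linear_combination (p 2) * hd - pderiv i (p 2) * h
    · change wr i p 0 1 * q 0 ^ 2 = wr i p 1 2 * q 2 ^ 2
      simp only [wr]
      linear_combination (-p 1) * hd + pderiv i (p 1) * h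
  · refine ⟨?_, rfl, ?_⟩
    · change wr i p 1 2 * q 1 ^ 2 = wr i p 2 0 * q 0 ^ 2
      simp only [wr]
      linear_combination (-p 2) * hd + pderiv i (p 2) * h
    · change wr i p 0 1 * q 1 ^ 2 = wr i p 2 0 * q 2 ^ 2
      simp only [wr]
      linear_combination (p 0) * hd - pderiv i (p 0) * h
  · refine ⟨?_, ?_, rfl⟩
    · change wr i p 1 2 * q 2 ^ 2 = wr i p 0 1 * q 0 ^ 2
      simp only [wr]
      linear_combination (p 1) * hd - pderiv i (p 1) * h
    · change wr i p 2 0 * q 2 ^ 2 = wr i p 0 1 * q 1 ^ 2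
      simp only [wr]
      linear_combination (-p 0) * hd + pderiv i (p 0) * h


theorem exists_vdeg' (p : Fin 3 → MvPolynomial σ k) (hp : p ≠ 0) :
    ∃ j, p j ≠ 0 ∧ (p j).totalDegree = vdeg p := by
  by_cases h0 : vdeg p = 0
  · obtain ⟨j, hj⟩ := Function.ne_iff.1 hp
    exact ⟨j, hj, by have := le_vdeg p j; omega⟩
  · obtain ⟨j, hj⟩ := exists_vdeg p
    refine ⟨j, ?_, hj⟩
    intro h
    rw [h, totalDegree_zero] at hj
    exact h0 hj.symm

/-- The vector `p × D p`. -/
noncomputable def wv (i : σ) (p : Fin 3 → MvPolynomial σ k) : Fin 3 → MvPolynomial σ k :=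
  ![wr i p 1 2, wr i p 2 0, wr i p 0 1]

theorem wv_prop [CharP k 2] (i : σ) (p q : Fin 3 → MvPolynomial σ k)
    (h : p 0 * q 0 ^ 2 + p 1 * q 1 ^ 2 + p 2 * q 2 ^ 2 = 0) (a j : Fin 3) :
    wv i p a * q j ^ 2 = wv i p j * q a ^ 2 := by
  obtain ⟨h0, h1, h2⟩ := wr_prop i p q h j
  fin_cases a
  · exact h0
  · exact h1
  · exact h2

theorem wv_deg (i : σ) (p : Fin 3 → MvPolynomial σ k) (a : Fin 3) (h : wv i p a ≠ 0) :
    (wv i p a).totalDegree + 1 ≤ 2 * vdeg p := by
  fin_cases a
  · exact wr_deg i p 1 2 h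
  · exact wr_deg i p 2 0 h
  · exact wr_deg i p 0 1 h

theorem vdeg_lt [CharP k 2] (i : σ) (p q : Fin 3 → MvPolynomial σ k) (hq0 : q ≠ 0) (hq : Prim q)
    (h : p 0 * q 0 ^ 2 + p 1 * q 1 ^ 2 + p 2 * q 2 ^ 2 = 0) (hw : wv i p ≠ 0) :
    vdeg q < vdeg p := by
  obtain ⟨j0, hj0, hd⟩ := exists_vdeg' q hq0
  have h1 : q j0 ^ 2 ∣ wv i p j0 := by
    refine dvd_of_prim hq _ (pow_ne_zero 2 hj0) _ (fun j => ?_)
    rw [wv_prop i p q h j0 j]
    exact Dvd.intro_left _ rfl
  obtain ⟨j, hj⟩ := Function.ne_iff.1 hw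
  have h2 : wv i p j0 ≠ 0 := by
    intro h2
    apply hj
    have := wv_prop i p q h j j0
    rw [h2, zero_mul] at this
    exact (mul_eq_zero.1 this).resolve_right (pow_ne_zero 2 hj0)
  obtain ⟨t, ht⟩ := h1
  have h3 := wv_deg i p j0 h2
  have h4 : t ≠ 0 := by
    rintro rfl
    rw [mul_zero] at ht
    exact h2 ht
  rw [ht, totalDegree_mul_of_isDomain (pow_ne_zero 2 hj0) h4, pow_two,
    totalDegree_mul_of_isDomain hj0 hj0] at h3
  omega

theorem wv_zero_or [CharP k 2] (p q : Fin 3 → MvPolynomial σ k) (hp0 : p ≠ 0) (hp : Prim p)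
    (hq0 : q ≠ 0) (hq : Prim q)
    (h : p 0 * q 0 ^ 2 + p 1 * q 1 ^ 2 + p 2 * q 2 ^ 2 = 0)
    (h' : q 0 * p 0 ^ 2 + q 1 * p 1 ^ 2 + q 2 * p 2 ^ 2 = 0) :
    (∀ i, wv i p = 0) ∨ (∀ i, wv i q = 0) := by
  by_contra hcon
  push Not at hcon
  obtain ⟨⟨i, hi⟩, ⟨i', hi'⟩⟩ := hcon
  have h1 := vdeg_lt i p q hq0 hq h hi
  have h2 := vdeg_lt i' q p hp0 hp h' hi'
  omega

theorem sq_of_wv [CharP k 2] [PerfectRing k 2] (p : Fin 3 → MvPolynomial σ k)
    (h : ∀ i, wv i p = 0) (a b : Fin 3) : ∃ g, p a * p b = g ^ 2 := by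
  have h2 : (2 : MvPolynomial σ k) = 0 := CharTwo.two_eq_zero
  have hw : ∀ i a b, wr i p a b = 0 := by
    intro i a b
    have e0 : wr i p 1 2 = 0 := congrFun (h i) 0
    have e1 : wr i p 2 0 = 0 := congrFun (h i) 1
    have e2 : wr i p 0 1 = 0 := congrFun (h i) 2
    unfold wr at e0 e1 e2 ⊢
    fin_cases a <;> fin_cases b <;>
      simp only [Fin.zero_eta, Fin.mk_one, Fin.reduceFinMk, Fin.isValue] <;>
      first
        | ring1
        | linear_combination e0
        | linear_combination e1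
        | linear_combination e2
        | linear_combination -e0
        | linear_combination -e1
        | linear_combination -e2
  refine exists_sq _ (fun i => ?_)
  rw [Derivation.leibniz, smul_eq_mul, smul_eq_mul]
  have := hw i a b
  unfold wr at this
  linear_combination this + p b * pderiv i (p a) * h2

end Pool.Agent.TH174.Gon
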